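import Pool.Agent.V11320.QS.Perc

/-!
# Integrals over Galton–Watson trees
-/

open MeasureTheory ProbabilityTheory Filter Topology
open scoped ENNReal

namespace Pool.Agent.V11320.QS

variable (q : PMF ℕ)

instance : IsProbabilityMeasure (gw q) := by unfold gw; infer_instance

/-- The weights of the offspring distribution. -/
noncomputable def aw (k : ℕ) : ℝ := (q k).toReal

lemma aw_nonneg (k : ℕ) : 0 ≤ aw q k := ENNReal.toReal_nonneg

lemma ofReal_aw (k : ℕ) : ENNReal.ofReal (aw q k) = q k :=
  ENNReal.ofReal_toReal (q.apply_ne_top k)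

/-- The generating function. -/
noncomputable def phi (x : ℂ) : ℂ := ∑' k, (aw q k : ℂ) * x ^ k

/-- The generating function on the real line. -/
noncomputable def phiR (x : ℝ) : ℝ := ∑' k, aw q k * x ^ k

lemma phi_ofReal (x : ℝ) : phi q (x : ℂ) = (phiR q x : ℂ) := by
  unfold phi phiR; push_cast; rfl

/-- The contribution of the trees whose root has `k` children. -/
noncomputable def piece (F : (List ℕ → ℕ) → ℂ) (k : ℕ) (t : List ℕ → ℕ) : ℂ :=
  (({k} : Set ℕ).indicator (fun _ => (1 : ℂ)) (t [])) * ∏ i : Fin k, F (sh (i : ℕ) t)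

lemma tsum_piece (F : (List ℕ → ℕ) → ℂ) (t : List ℕ → ℕ) :
    ∑' k, piece F k t = ∏ i ∈ Finset.range (t []), F (sh i t) := by
  rw [tsum_eq_single (t [])]
  · simp [piece, Finset.prod_range (fun i => F (sh i t))]
  · intro k hk
    have : t [] ∉ ({k} : Set ℕ) := fun h => hk (Set.mem_singleton_iff.1 h).symm
    simp [piece, this]

lemma enorm_prod' {ι : Type*} (s : Finset ι) (f : ι → ℂ) :
    ‖∏ i ∈ s, f i‖ₑ = ∏ i ∈ s, ‖f i‖ₑ := by
  simp only [enorm_eq_nnnorm, nnnorm_prod]
  push_cast
  rfl

lemma measurable_root : Measurable (fun t : List ℕ → ℕ => t []) := measurable_pi_apply []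

lemma measurable_piece {F : (List ℕ → ℕ) → ℂ} (hF : Measurable F) (k : ℕ) :
    Measurable (piece F k) := by
  unfold piece
  refine Measurable.mul ?_ (Finset.measurable_prod _ fun i _ => hF.comp (measurable_sh _))
  exact (measurable_from_nat (f := ({k} : Set ℕ).indicator (fun _ => (1 : ℂ)))).comp
    (measurable_pi_apply [])

lemma lintegral_piece {F : (List ℕ → ℕ) → ℂ} (hF : Measurable F) (k : ℕ) :
    ∫⁻ t, ‖piece F k t‖ₑ ∂gw q = q k * (∫⁻ t, ‖F t‖ₑ ∂gw q) ^ k := by
  have h := split_lintegral q.toMeasure k (h := ({k} : Set ℕ).indicator 1)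
    measurable_from_nat (F := fun _ t => ‖F t‖ₑ) (fun _ => hF.enorm)
  rw [lintegral_indicator_one (measurableSet_singleton k),
    PMF.toMeasure_apply_singleton _ _ (measurableSet_singleton k), Finset.prod_const,
    Finset.card_univ, Fintype.card_fin] at h
  rw [gw, ← h]
  refine lintegral_congr fun t => ?_
  unfold piece
  rw [enorm_mul, enorm_prod']
  congr 1
  by_cases ht : t [] ∈ ({k} : Set ℕ)
  · simp [Set.indicator_of_mem ht]
  · simp [Set.indicator_of_notMem ht]

lemma integral_piece {F : (List ℕ → ℕ) → ℂ} (hF : Measurable F) (k : ℕ) :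
    ∫ t, piece F k t ∂gw q = (aw q k : ℂ) * (∫ t, F t ∂gw q) ^ k := by
  have h := split_integral q.toMeasure k (({k} : Set ℕ).indicator (fun _ => (1 : ℂ)))
    measurable_from_nat F hF
  unfold piece
  rw [gw, h, integral_indicator (measurableSet_singleton k)]
  simp only [integral_const, MeasurableSet.univ, measureReal_restrict_apply, Set.univ_inter]
  congr 1
  simp [Measure.real, PMF.toMeasure_apply_singleton _ _ (measurableSet_singleton k), aw]

/-- The branching property. -/
lemma branch {R : ℝ} (hR : 0 ≤ R) (hs : Summable fun k => aw q k * R ^ k)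
    {F : (List ℕ → ℕ) → ℂ} (hF : Measurable F) (hFi : Integrable F (gw q))
    (hb : ∫ t, ‖F t‖ ∂gw q ≤ R) :
    Integrable (fun t => ∏ i ∈ Finset.range (t []), F (sh i t)) (gw q) ∧
      ∫ t, ∏ i ∈ Finset.range (t []), F (sh i t) ∂gw q = phi q (∫ t, F t ∂gw q) := by
  have hb' : ∫⁻ t, ‖F t‖ₑ ∂gw q ≤ ENNReal.ofReal R := by
    rw [← ofReal_integral_norm_eq_lintegral_enorm hFi]
    exact ENNReal.ofReal_le_ofReal hb
  have hfin : ∑' k, ∫⁻ t, ‖piece F k t‖ₑ ∂gw q ≠ ∞ := by
    have h1 : ∀ k, ∫⁻ t, ‖piece F k t‖ₑ ∂gw q ≤ ENNReal.ofReal (aw q k * R ^ k) := by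
      intro k
      rw [lintegral_piece q hF, ENNReal.ofReal_mul (aw_nonneg q k), ofReal_aw,
        ENNReal.ofReal_pow hR]
      gcongr
    refine ne_top_of_le_ne_top ?_ (ENNReal.tsum_le_tsum h1)
    rw [← ENNReal.ofReal_tsum_of_nonneg (fun k => mul_nonneg (aw_nonneg q k) (pow_nonneg hR k)) hs]
    exact ENNReal.ofReal_ne_top
  have hm : Measurable (fun t : List ℕ → ℕ => ∏ i ∈ Finset.range (t []), F (sh i t)) := by
    have : (fun t : List ℕ → ℕ => ∏ i ∈ Finset.range (t []), F (sh i t)) =
        (fun p : ℕ × (List ℕ → ℕ) => ∏ i ∈ Finset.range p.1, F (sh i p.2)) ∘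
          fun t => (t [], t) := rfl
    rw [this]
    refine Measurable.comp ?_ (measurable_root.prodMk measurable_id)
    refine measurable_from_prod_countable_right fun k => ?_
    show Measurable fun y : List ℕ → ℕ => ∏ i ∈ Finset.range k, F (sh i y)
    exact Finset.measurable_fun_prod _ fun i _ => hF.comp (measurable_sh i)
  refine ⟨⟨hm.aestronglyMeasurable, ?_⟩, ?_⟩
  · unfold HasFiniteIntegral
    refine lt_of_le_of_lt ?_ (lt_top_iff_ne_top.2 hfin)
    rw [← lintegral_tsum (fun k => (measurable_piece hF k).enorm.aemeasurable)]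
    refine lintegral_mono fun t => ?_
    show ‖∏ i ∈ Finset.range (t []), F (sh i t)‖ₑ ≤ _
    rw [← tsum_piece]
    rw [tsum_eq_single (t []) (f := fun k => piece F k t)]
    · exact ENNReal.le_tsum (f := fun k => ‖piece F k t‖ₑ) (t [])
    · intro k hk
      have : t [] ∉ ({k} : Set ℕ) := fun h => hk (Set.mem_singleton_iff.1 h).symm
      simp [piece, this]
  · simp only [← tsum_piece]
    rw [integral_tsum (fun k => (measurable_piece hF k).aestronglyMeasurable) hfin]
    simp only [integral_piece q hF]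
    rfl

lemma measurable_W {Y : Type*} [MeasurableSpace Y] {z w : Y → ℂ} (hz : Measurable z)
    (hw : Measurable w) (n : ℕ) :
    Measurable (fun p : Y × (List ℕ → ℕ) => W (z p.1) (w p.1) n p.2) := by
  induction n with
  | zero => simp only [W]; exact hw.comp measurable_fst
  | succ n ih =>
    simp only [W]
    refine Measurable.add (by fun_prop) (Measurable.mul (by fun_prop) ?_)
    have : (fun p : Y × (List ℕ → ℕ) => ∏ i ∈ Finset.range (p.2 []), W (z p.1) (w p.1) n
        (sh i p.2)) = (fun r : ℕ × (Y × (List ℕ → ℕ)) => ∏ i ∈ Finset.range r.1,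
          W (z r.2.1) (w r.2.1) n (sh i r.2.2)) ∘ fun p => (p.2 [], p) := rfl
    rw [this]
    refine Measurable.comp ?_ ((measurable_root.comp measurable_snd).prodMk measurable_id)
    refine measurable_from_prod_countable_right fun k => ?_
    show Measurable fun y : Y × (List ℕ → ℕ) => ∏ i ∈ Finset.range k,
      W (z y.1) (w y.1) n (sh i y.2)
    refine Finset.measurable_fun_prod _ fun i _ => ?_
    exact ih.comp (measurable_fst.prodMk ((measurable_sh i).comp measurable_snd))

lemma measurable_W1 (z w : ℂ) (n : ℕ) : Measurable (W z w n) := by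
  have h := measurable_W (Y := Unit) (z := fun _ => z) (w := fun _ => w) measurable_const
    measurable_const n
  exact h.comp (measurable_const (a := ()) |>.prodMk measurable_id)

end Pool.Agent.V11320.QS
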