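import Pool.Agent.V11320.QS.Local

/-!
# Almost sure locally uniform convergence
-/

open MeasureTheory ProbabilityTheory Filter Topology
open scoped ENNReal ComplexConjugate Real

namespace Pool.Agent.V11320.QS

variable {q : PMF ℕ} {R : ℝ}

lemma cauchy_bound {f : ℂ → ℂ} {c : ℂ} {r : ℝ} (hr : 0 < r)
    (hf : DiffContOnCl ℂ f (Metric.ball c r)) {z : ℂ} (hz : z ∈ Metric.ball c (r / 2)) :
    ‖f z‖ ≤ ∫ s in (0 : ℝ)..2 * π, ‖f (circleMap c r s)‖ := by
  have hz' : z ∈ Metric.ball c r := Metric.ball_subset_ball (by linarith) hz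
  have h := hf.circleIntegral_sub_inv_smul hz'
  have hcont : Continuous fun s : ℝ => ‖f (circleMap c r s)‖ := by
    refine continuous_norm.comp (hf.continuousOn.comp_continuous (continuous_circleMap c r) ?_)
    intro s
    rw [closure_ball c hr.ne']
    exact Metric.sphere_subset_closedBall (circleMap_mem_sphere c hr.le s)
  have hb : ∀ s : ℝ, ‖deriv (circleMap c r) s • ((circleMap c r s - z)⁻¹ •
      f (circleMap c r s))‖ ≤ 2 * ‖f (circleMap c r s)‖ := by
    intro s
    rw [deriv_circleMap, norm_smul, norm_smul, norm_mul, norm_circleMap_zero, Complex.norm_I,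
      mul_one, abs_of_pos hr, norm_inv, ← mul_assoc]
    refine mul_le_mul_of_nonneg_right ?_ (norm_nonneg _)
    have h1 : r / 2 ≤ ‖circleMap c r s - z‖ := by
      have h2 : ‖circleMap c r s - c‖ = r := by
        have := circleMap_mem_sphere c hr.le s
        rwa [mem_sphere_iff_norm] at this
      have h3 : ‖z - c‖ < r / 2 := by rwa [mem_ball_iff_norm] at hz
      have h4 : ‖circleMap c r s - c‖ ≤ ‖circleMap c r s - z‖ + ‖z - c‖ := by
        have := norm_add_le (circleMap c r s - z) (z - c)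
        simpa using this
      linarith
    have h0 : 0 < ‖circleMap c r s - z‖ := by linarith
    rw [← div_eq_mul_inv, div_le_iff₀ h0]
    linarith
  have hI : ‖∮ ζ in C(c, r), (ζ - z)⁻¹ • f ζ‖ ≤ 2 * ∫ s in (0 : ℝ)..2 * π,
      ‖f (circleMap c r s)‖ := by
    unfold circleIntegral
    rw [← intervalIntegral.integral_const_mul]
    refine intervalIntegral.norm_integral_le_of_norm_le Real.two_pi_pos.le
      (ae_of_all _ fun s _ => hb s) ?_
    exact (hcont.const_mul 2).intervalIntegrable _ _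
  rw [h, norm_smul] at hI
  have h2pi : ‖(2 * π * Complex.I : ℂ)‖ = 2 * π := by
    simp [abs_of_pos Real.pi_pos]
  rw [h2pi] at hI
  have hpi : 1 ≤ π := by linarith [Real.pi_gt_three]
  nlinarith [norm_nonneg (f z)]

/-- Almost sure summability of the increments. -/
lemma ae_summable {g : ℂ → ℂ} {c : ℂ} {r ρ θ : ℝ} (hr : 0 < r) (hθ : 0 ≤ θ) (hθ1 : θ < 1)
    (hρ : 0 ≤ ρ) (hg : ContinuousOn g (Metric.closedBall c r))
    (hG : ∀ z ∈ Metric.closedBall c r, Good q R z (g z) ρ ∧
      ∀ x y, 0 ≤ x → x ≤ y → y ≤ ρ → ‖z‖ ^ 2 * (phiR q y - phiR q x) ≤ θ * (y - x)) :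
    ∀ᵐ t ∂gw q, Summable fun n : ℕ => ∫ s in (0 : ℝ)..2 * π,
      ‖W (circleMap c r s) (g (circleMap c r s)) (n + 1) t -
        W (circleMap c r s) (g (circleMap c r s)) n t‖ := by
  have hcirc : ∀ s, circleMap c r s ∈ Metric.closedBall c r := fun s =>
    Metric.sphere_subset_closedBall (circleMap_mem_sphere c hr.le s)
  have hgc : Continuous fun s : ℝ => g (circleMap c r s) :=
    hg.comp_continuous (continuous_circleMap c r) hcirc
  set D : ℕ → ℝ × (List ℕ → ℕ) → ℂ := fun n p =>
    W (circleMap c r p.1) (g (circleMap c r p.1)) (n + 1) p.2 -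
      W (circleMap c r p.1) (g (circleMap c r p.1)) n p.2 with hD
  have hDm : ∀ n, Measurable (D n) := fun n =>
    (measurable_W (continuous_circleMap c r).measurable hgc.measurable (n + 1)).sub
      (measurable_W (continuous_circleMap c r).measurable hgc.measurable n)
  set ν : Measure ℝ := volume.restrict (Set.Ioc 0 (2 * π)) with hν
  have hmass : ν Set.univ = ENNReal.ofReal (2 * π) := by
    rw [hν, Measure.restrict_apply_univ, Real.volume_Ioc, sub_zero]
  have h1 : ∀ n, ∫⁻ t, ∫⁻ s, ‖D n (s, t)‖ₑ ∂ν ∂gw q ≤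
      ENNReal.ofReal (√(θ ^ n * ρ)) * ENNReal.ofReal (2 * π) := by
    intro n
    rw [lintegral_lintegral_swap (f := fun t s => ‖D n (s, t)‖ₑ)
      (((hDm n).comp measurable_swap).enorm.aemeasurable)]
    calc ∫⁻ s, ∫⁻ t, ‖D n (s, t)‖ₑ ∂gw q ∂ν ≤ ∫⁻ _s, ENNReal.ofReal (√(θ ^ n * ρ)) ∂ν := by
          refine lintegral_mono fun s => ?_
          obtain ⟨hg1, hg2⟩ := hG _ (hcirc s)
          have := diff_L1 hg1 hθ hg2 n
          rw [← ofReal_integral_norm_eq_lintegral_enorm this.1]
          exact ENNReal.ofReal_le_ofReal this.2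
      _ = _ := by rw [lintegral_const, hmass]
  have hsum : Summable fun n : ℕ => √(θ ^ n * ρ) := by
    have : ∀ n : ℕ, √(θ ^ n * ρ) = √ρ * (√θ) ^ n := by
      intro n
      rw [Real.sqrt_mul (pow_nonneg hθ n), mul_comm]
      congr 1
      rw [Real.sqrt_eq_rpow, Real.sqrt_eq_rpow, ← Real.rpow_natCast, ← Real.rpow_natCast,
        ← Real.rpow_mul hθ, ← Real.rpow_mul hθ, mul_comm]
    simp only [this]
    refine (summable_geometric_of_lt_one (Real.sqrt_nonneg θ) ?_).mul_left _
    rw [← Real.sqrt_one]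
    exact Real.sqrt_lt_sqrt hθ hθ1
  have hfin : ∫⁻ t, ∑' n, ∫⁻ s, ‖D n (s, t)‖ₑ ∂ν ∂gw q ≠ ∞ := by
    rw [lintegral_tsum fun n => ?_]
    · refine ne_top_of_le_ne_top ?_ (ENNReal.tsum_le_tsum h1)
      rw [ENNReal.tsum_mul_right]
      refine ENNReal.mul_ne_top ?_ ENNReal.ofReal_ne_top
      rw [← ENNReal.ofReal_tsum_of_nonneg (fun n => Real.sqrt_nonneg _) hsum]
      exact ENNReal.ofReal_ne_top
    · exact (Measurable.lintegral_prod_right' (f := fun p : (List ℕ → ℕ) × ℝ => ‖D n (p.2, p.1)‖ₑ)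
        ((hDm n).comp measurable_swap).enorm).aemeasurable
  have hmeas : Measurable fun t => ∑' n, ∫⁻ s, ‖D n (s, t)‖ₑ ∂ν :=
    Measurable.ennreal_tsum fun n =>
      Measurable.lintegral_prod_right' (f := fun p : (List ℕ → ℕ) × ℝ => ‖D n (p.2, p.1)‖ₑ)
        ((hDm n).comp measurable_swap).enorm
  filter_upwards [ae_lt_top hmeas hfin] with t ht
  have h2 := ENNReal.summable_toReal ht.ne
  refine h2.congr fun n => ?_
  rw [intervalIntegral.integral_of_le Real.two_pi_pos.le]
  rw [integral_norm_eq_lintegral_enorm]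
  exact ((hDm n).comp (measurable_id.prodMk measurable_const)).aestronglyMeasurable

lemma W_diff {g : ℂ → ℂ} {U : Set ℂ} (hg : DifferentiableOn ℂ g U) (n : ℕ) :
    ∀ t : List ℕ → ℕ, DifferentiableOn ℂ (fun z => W z (g z) n t) U := by
  induction n with
  | zero => intro t; simpa only [W] using hg
  | succ n ih =>
    intro t
    simp only [W]
    refine DifferentiableOn.add (by fun_prop) (DifferentiableOn.mul differentiableOn_id ?_)
    exact DifferentiableOn.fun_finset_prod fun i _ => ih _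

lemma W_cont {g : ℂ → ℂ} {U : Set ℂ} (hg : ContinuousOn g U) (n : ℕ) :
    ∀ t : List ℕ → ℕ, ContinuousOn (fun z => W z (g z) n t) U := by
  induction n with
  | zero => intro t; simpa only [W] using hg
  | succ n ih =>
    intro t
    simp only [W]
    refine ContinuousOn.add (by fun_prop) (ContinuousOn.mul continuousOn_id ?_)
    exact continuousOn_finset_prod _ fun i _ => ih _

/-- Almost surely the iterates converge to an analytic function. -/
lemma ae_limit {g : ℂ → ℂ} {c : ℂ} {r ρ θ : ℝ} (hr : 0 < r) (hθ : 0 ≤ θ) (hθ1 : θ < 1)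
    (hρ : 0 ≤ ρ) (hg : ContinuousOn g (Metric.closedBall c r))
    (hgd : DifferentiableOn ℂ g (Metric.ball c r))
    (hG : ∀ z ∈ Metric.closedBall c r, Good q R z (g z) ρ ∧
      ∀ x y, 0 ≤ x → x ≤ y → y ≤ ρ → ‖z‖ ^ 2 * (phiR q y - phiR q x) ≤ θ * (y - x)) :
    ∀ᵐ t ∂gw q, ∃ L : ℂ → ℂ, DifferentiableOn ℂ L (Metric.ball c (r / 2)) ∧
      ∀ z ∈ Metric.ball c (r / 2), Tendsto (fun n => W z (g z) n t) atTop (𝓝 (L z)) := by
  filter_upwards [ae_summable hr hθ hθ1 hρ hg hG] with t ht
  have hsub : Metric.ball c (r / 2) ⊆ Metric.ball c r := Metric.ball_subset_ball (by linarith)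
  have hb : ∀ (n : ℕ) (z : ℂ), z ∈ Metric.ball c (r / 2) →
      ‖W z (g z) (n + 1) t - W z (g z) n t‖ ≤ ∫ s in (0 : ℝ)..2 * π,
      ‖W (circleMap c r s) (g (circleMap c r s)) (n + 1) t -
        W (circleMap c r s) (g (circleMap c r s)) n t‖ := by
    intro n z hz
    refine cauchy_bound (f := fun z => W z (g z) (n + 1) t - W z (g z) n t) hr ?_ hz
    refine ⟨(W_diff hgd (n + 1) t).sub (W_diff hgd n t), ?_⟩
    rw [closure_ball c hr.ne']
    exact (W_cont hg (n + 1) t).sub (W_cont hg n t)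
  refine ⟨fun z => g z + ∑' n : ℕ, (W z (g z) (n + 1) t - W z (g z) n t), ?_, ?_⟩
  · refine (hgd.mono hsub).add ?_
    exact Complex.differentiableOn_tsum_of_summable_norm ht
      (fun n => ((W_diff hgd (n + 1) t).sub (W_diff hgd n t)).mono hsub) Metric.isOpen_ball hb
  · intro z hz
    have hs : Summable fun n : ℕ => W z (g z) (n + 1) t - W z (g z) n t :=
      Summable.of_norm_bounded ht fun n => hb n z hz
    have h1 := hs.hasSum.tendsto_sum_nat
    have h2 : ∀ n, ∑ k ∈ Finset.range n, (W z (g z) (k + 1) t - W z (g z) k t) =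
        W z (g z) n t - g z := by
      intro n
      rw [Finset.sum_range_sub (fun k => W z (g z) k t)]
      simp [W]
    simp only [h2] at h1
    have h3 := h1.const_add (g z)
    simpa using h3

end Pool.Agent.V11320.QS
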