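import Mathlib

/-!
# Galton–Watson trees and percolation on them: the definitions
-/

open MeasureTheory ProbabilityTheory

namespace Pool.Agent.V11320.QS

/-- The vertices of the rooted tree in which the vertex `u` has `t u` children.  A vertex is
the list of the steps from the root; the children of `u` are `u ++ [i]`, `i < t u`. -/
def IsVertex (t : List ℕ → ℕ) (v : List ℕ) : Prop :=
  ∀ (u : List ℕ) (i : ℕ), u ++ [i] <+: v → i < t u

/-- The open cluster of the root: the vertices `v` all of whose edges on the path from the root
are open.  The edge that joins the vertex `u ≠ []` to its parent is open when `η u = true`. -/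
def cluster (t : List ℕ → ℕ) (η : List ℕ → Bool) : Set (List ℕ) :=
  {v | IsVertex t v ∧ ∀ u : List ℕ, u ≠ [] → u <+: v → η u = true}

/-- The Bernoulli law on `Bool` with parameter `p` (clipped to `[0, 1]`). -/
noncomputable def ber (p : ℝ) : Measure Bool :=
  ENNReal.ofReal (max 0 (min p 1)) • Measure.dirac true +
    ENNReal.ofReal (1 - max 0 (min p 1)) • Measure.dirac false

instance (p : ℝ) : IsProbabilityMeasure (ber p) := by
  constructor
  have h0 : (0 : ℝ) ≤ max 0 (min p 1) := le_max_left _ _
  have h1 : max 0 (min p 1) ≤ 1 := max_le zero_le_one (min_le_right _ _)
  simp only [ber, Measure.coe_add, Measure.coe_smul, Pi.add_apply, Pi.smul_apply, smul_eq_mul,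
    measure_univ, mul_one]
  rw [← ENNReal.ofReal_add h0 (by linarith)]
  simp

/-- Bernoulli percolation: the edges are open independently with probability `p`. -/
noncomputable def perc (p : ℝ) : Measure (List ℕ → Bool) :=
  Measure.infinitePi fun _ => ber p

/-- The quenched survival function: the probability that the open cluster of the root is
infinite, for a fixed tree. -/
noncomputable def quenched (t : List ℕ → ℕ) (p : ℝ) : ℝ :=
  (perc p).real {η | (cluster t η).Infinite}

/-- The law of the Galton–Watson tree with offspring distribution `q`: the numbers of children
are independent with law `q`. -/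
noncomputable def gw (q : PMF ℕ) : Measure (List ℕ → ℕ) :=
  Measure.infinitePi fun _ => q.toMeasure

/-- The mean of the offspring distribution. -/
noncomputable def mean (q : PMF ℕ) : ℝ := ∑' n : ℕ, (n : ℝ) * (q n).toReal

end Pool.Agent.V11320.QS
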