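import Pool.Agent.V11320.QS.Real

/-!
# Analyticity of the quenched survival function
-/

open MeasureTheory ProbabilityTheory Filter Topology
open scoped ENNReal ComplexConjugate Real

namespace Pool.Agent.V11320.QS

variable {q : PMF ℕ} {R : ℝ}

lemma local_result (h : EM q R) (hm : 1 < mean q) {p₀ : ℝ} (hp : (mean q)⁻¹ ≤ p₀)
    (hp1 : p₀ < 1) :
    ∃ δ > 0, ∀ᵐ t ∂gw q, ∃ F : ℝ → ℝ,
      (∀ y ∈ Set.Ioo (p₀ - δ) (p₀ + δ), AnalyticAt ℝ F y) ∧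
      ∀ p ∈ Set.Ioo (p₀ - δ) (p₀ + δ), (mean q)⁻¹ ≤ p → p < 1 → F p = quenched t p := by
  have hm0 : 0 < mean q := zero_lt_one.trans hm
  have hc0 : 0 < (mean q)⁻¹ := inv_pos.2 hm0
  have hp0 : 0 < p₀ := hc0.trans_le hp
  obtain ⟨g, ρ, θ, g1, hθ, hθ1, hρ, e1, e2⟩ := local_good h hm hp hp1
  obtain ⟨ε₁, hε₁, h1⟩ := Metric.eventually_nhds_iff.1 (e1.and g1.eventually_analyticAt)
  obtain ⟨ε₂, hε₂, h2⟩ := Metric.eventually_nhds_iff.1 e2
  set r : ℝ := min (ε₁ / 2) (min (ε₂ / 2) (p₀ / 2)) with hr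
  have hr0 : 0 < r := lt_min (by linarith) (lt_min (by linarith) (by linarith))
  have hr1 : r ≤ ε₁ / 2 := min_le_left _ _
  have hr2 : r ≤ ε₂ / 2 := (min_le_right _ _).trans (min_le_left _ _)
  have hr3 : r ≤ p₀ / 2 := (min_le_right _ _).trans (min_le_right _ _)
  have hcl : ∀ z ∈ Metric.closedBall (p₀ : ℂ) r, dist z (p₀ : ℂ) < ε₁ := fun z hz => by
    have := Metric.mem_closedBall.1 hz
    linarith
  have hg : ContinuousOn g (Metric.closedBall (p₀ : ℂ) r) := fun z hz =>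
    (h1 (hcl z hz)).2.continuousAt.continuousWithinAt
  have hgd : DifferentiableOn ℂ g (Metric.ball (p₀ : ℂ) r) := fun z hz =>
    (h1 (hcl z (Metric.ball_subset_closedBall hz))).2.differentiableAt.differentiableWithinAt
  have hA := ae_limit (q := q) hr0 hθ hθ1 hρ hg hgd fun z hz => (h1 (hcl z hz)).1
  have hball : ∀ y ∈ Set.Ioo (p₀ - r / 2) (p₀ + r / 2),
      (y : ℂ) ∈ Metric.ball (p₀ : ℂ) (r / 2) := by
    intro y hy
    rw [Metric.mem_ball, Complex.dist_eq, ← Complex.ofReal_sub, Complex.norm_real,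
      Real.norm_eq_abs, abs_lt]
    constructor <;> linarith [hy.1, hy.2]
  set Q : Set ℝ := Set.range ((↑) : ℚ → ℝ) ∪ {(mean q)⁻¹} with hQ
  have hQc : Q.Countable := (Set.countable_range _).union (Set.countable_singleton _)
  have hB : ∀ p ∈ Q, ∀ᵐ t ∂gw q, p ∈ Set.Ioo (p₀ - r / 2) (p₀ + r / 2) → (mean q)⁻¹ ≤ p →
      p < 1 → Tendsto (fun n => W (p : ℂ) (g p) n t) atTop (𝓝 (1 - p * quenched t p : ℝ)) := by
    intro p _
    by_cases hc : p ∈ Set.Ioo (p₀ - r / 2) (p₀ + r / 2) ∧ (mean q)⁻¹ ≤ p ∧ p < 1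
    · obtain ⟨c1, c2, c3⟩ := hc
      obtain ⟨x, x0, x1, hx, hgx⟩ := @h2 p (by
        rw [Real.dist_eq, abs_lt]; constructor <;> linarith [c1.1, c1.2]) c2 c3
      have hl : ∀ᵐ t ∂gw q, ∃ l : ℂ, Tendsto (fun n => W (p : ℂ) (x : ℂ) n t) atTop (𝓝 l) := by
        filter_upwards [hA] with t ht
        obtain ⟨L, _, hL2⟩ := ht
        refine ⟨L p, ?_⟩
        have := hL2 p (hball p c1)
        rwa [hgx] at this
      filter_upwards [real_limit h hm (hc0.trans_le c2) c3 x0 x1 hx hl] with t ht _ _ _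
      rwa [hgx]
    · exact ae_of_all _ fun t c1 c2 c3 => absurd ⟨c1, c2, c3⟩ hc
  refine ⟨r / 2, by linarith, ?_⟩
  filter_upwards [hA, (ae_ball_iff hQc).2 hB] with t ht htQ
  obtain ⟨L, hL1, hL2⟩ := ht
  have hpos : ∀ y ∈ Set.Ioo (p₀ - r / 2) (p₀ + r / 2), 0 < y := fun y hy => by
    linarith [hy.1]
  have han : ∀ y ∈ Set.Ioo (p₀ - r / 2) (p₀ + r / 2),
      AnalyticAt ℝ (fun p : ℝ => ((1 - L (p : ℂ)) / (p : ℂ)).re) y := by
    intro y hy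
    have ha : AnalyticAt ℂ L (y : ℂ) :=
      hL1.analyticAt (Metric.isOpen_ball.mem_nhds (hball y hy))
    have hne : (y : ℂ) ≠ 0 := by exact_mod_cast (hpos y hy).ne'
    exact AnalyticAt.re_ofReal (f := fun z => (1 - L z) / z)
      ((analyticAt_const.sub ha).div analyticAt_id hne)
  have hkey : ∀ p ∈ Q, p ∈ Set.Ioo (p₀ - r / 2) (p₀ + r / 2) → (mean q)⁻¹ ≤ p → p < 1 →
      ((1 - L (p : ℂ)) / (p : ℂ)).re = quenched t p := by
    intro p hpQ c1 c2 c3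
    have hl := tendsto_nhds_unique (hL2 p (hball p c1)) (htQ p hpQ c1 c2 c3)
    have hp : p ≠ 0 := (hpos p c1).ne'
    rw [hl]
    have : (1 - ((1 - p * quenched t p : ℝ) : ℂ)) / (p : ℂ) = (quenched t p : ℂ) := by
      have hpc : (p : ℂ) ≠ 0 := by exact_mod_cast hp
      rw [div_eq_iff hpc]; push_cast; ring
    rw [this, Complex.ofReal_re]
  refine ⟨fun p => ((1 - L (p : ℂ)) / (p : ℂ)).re, han, ?_⟩
  intro p c1 c2 c3
  show ((1 - L (p : ℂ)) / (p : ℂ)).re = quenched t p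
  rcases eq_or_lt_of_le c2 with c2' | c2'
  · exact hkey p (Or.inr c2'.symm) c1 c2 c3
  have hcont := (han p c1).continuousAt
  have hIoo : ∀ᶠ y in 𝓝 p, y ∈ Set.Ioo (p₀ - r / 2) (p₀ + r / 2) := Ioo_mem_nhds c1.1 c1.2
  rcases lt_trichotomy ((1 - L (p : ℂ)) / (p : ℂ)).re (quenched t p) with hlt | heq | hgt
  · exfalso
    have f1 : ∀ᶠ y in 𝓝 p, ((1 - L ((y : ℝ) : ℂ)) / (y : ℂ)).re < quenched t p :=
      hcont.eventually (Iio_mem_nhds hlt)
    obtain ⟨ε, hε, hf⟩ := Metric.eventually_nhds_iff.1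
      ((f1.and hIoo).and (Iio_mem_nhds c3 : ∀ᶠ y in 𝓝 p, y < 1))
    obtain ⟨b, hb1, hb2⟩ := exists_rat_btwn (show p < p + ε by linarith)
    have hd : dist (b : ℝ) p < ε := by
      rw [Real.dist_eq, abs_of_pos (by linarith)]; linarith
    obtain ⟨⟨k1, k2⟩, k3⟩ := hf hd
    have hk := hkey b (Or.inl ⟨b, rfl⟩) k2 (c2.trans hb1.le) k3
    rw [hk] at k1
    have := quenched_mono t (hpos p c1).le hb1.le (le_of_lt k3)
    linarith
  · exact heq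
  · exfalso
    have f1 : ∀ᶠ y in 𝓝 p, quenched t p < ((1 - L ((y : ℝ) : ℂ)) / (y : ℂ)).re :=
      hcont.eventually (Ioi_mem_nhds hgt)
    obtain ⟨ε, hε, hf⟩ := Metric.eventually_nhds_iff.1
      ((f1.and hIoo).and (Ioi_mem_nhds c2' : ∀ᶠ y in 𝓝 p, (mean q)⁻¹ < y))
    obtain ⟨b, hb1, hb2⟩ := exists_rat_btwn (show p - ε < p by linarith)
    have hd : dist (b : ℝ) p < ε := by
      rw [Real.dist_eq, abs_of_neg (by linarith)]; linarith
    obtain ⟨⟨k1, k2⟩, k3⟩ := hf hd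
    have k3' : (mean q)⁻¹ < (b : ℝ) := k3
    have hk := hkey b (Or.inl ⟨b, rfl⟩) k2 k3'.le (hb2.trans c3)
    rw [hk] at k1
    have := quenched_mono t (hc0.trans k3').le hb2.le c3.le
    linarith

lemma em_of_exp (hexp : ∃ l > 0, Summable fun n : ℕ => (q n).toReal * Real.exp (l * n)) :
    ∃ R, EM q R := by
  obtain ⟨l, hl, hs⟩ := hexp
  refine ⟨Real.exp (l / 2), ⟨Real.one_lt_exp_iff.2 (by linarith), ?_⟩⟩
  set c : ℝ := min 1 (l / 4) with hc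
  have hc0 : 0 < c := lt_min one_pos (by linarith)
  have hk : ∀ k : ℕ, ((k : ℝ) + 1) ^ 2 * Real.exp (l / 2) ^ k ≤
      (c ^ 2)⁻¹ * Real.exp (l * k) := by
    intro k
    have hk0 : (0 : ℝ) ≤ k := k.cast_nonneg
    have h1 : c * ((k : ℝ) + 1) ≤ Real.exp (l / 4 * k) := by
      have h2 := Real.add_one_le_exp (l / 4 * k)
      have h3 : c ≤ 1 := min_le_left _ _
      have h4 : c ≤ l / 4 := min_le_right _ _
      nlinarith
    have h5 : (c * ((k : ℝ) + 1)) ^ 2 ≤ Real.exp (l / 4 * k) ^ 2 :=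
      pow_le_pow_left₀ (by positivity) h1 2
    have h6 : Real.exp (l / 4 * k) ^ 2 * Real.exp (l / 2) ^ k = Real.exp (l * k) := by
      rw [← Real.exp_nat_mul, ← Real.exp_nat_mul, ← Real.exp_add]
      congr 1; push_cast; ring
    rw [inv_mul_eq_div, le_div_iff₀ (by positivity)]
    calc ((k : ℝ) + 1) ^ 2 * Real.exp (l / 2) ^ k * c ^ 2
        = (c * ((k : ℝ) + 1)) ^ 2 * Real.exp (l / 2) ^ k := by ring
      _ ≤ Real.exp (l / 4 * k) ^ 2 * Real.exp (l / 2) ^ k :=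
          mul_le_mul_of_nonneg_right h5 (by positivity)
      _ = _ := h6
  refine Summable.of_nonneg_of_le (fun k => mul_nonneg (aw_nonneg q k) (by positivity))
    (fun k => ?_) (hs.mul_left (c ^ 2)⁻¹)
  calc aw q k * (((k : ℝ) + 1) ^ 2 * Real.exp (l / 2) ^ k)
      ≤ aw q k * ((c ^ 2)⁻¹ * Real.exp (l * k)) :=
        mul_le_mul_of_nonneg_left (hk k) (aw_nonneg q k)
    _ = _ := by unfold aw; ring

theorem main (q : PMF ℕ)
    (hexp : ∃ l > 0, Summable fun n : ℕ => (q n).toReal * Real.exp (l * n))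
    (hm : 1 < mean q) :
    ∀ᵐ t ∂gw q, ∃ a < (mean q)⁻¹, ∃ F : ℝ → ℝ, AnalyticOnNhd ℝ F (Set.Ioo a 1) ∧
      ∀ p ∈ Set.Ico (mean q)⁻¹ 1, F p = quenched t p := by
  obtain ⟨R, hE⟩ := em_of_exp hexp
  have hm0 : 0 < mean q := zero_lt_one.trans hm
  have hpc1 : (mean q)⁻¹ < 1 := inv_lt_one_of_one_lt₀ hm
  have hloc : ∀ p : ℝ, ∃ δ > 0, p ∈ Set.Ico (mean q)⁻¹ 1 → ∀ᵐ t ∂gw q, ∃ F : ℝ → ℝ,
      (∀ y ∈ Set.Ioo (p - δ) (p + δ), AnalyticAt ℝ F y) ∧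
      ∀ r ∈ Set.Ioo (p - δ) (p + δ), (mean q)⁻¹ ≤ r → r < 1 → F r = quenched t r := by
    intro p
    by_cases hp : p ∈ Set.Ico (mean q)⁻¹ 1
    · obtain ⟨δ, hδ, h⟩ := local_result hE hm hp.1 hp.2
      exact ⟨δ, hδ, fun _ => h⟩
    · exact ⟨1, one_pos, fun h => absurd h hp⟩
  choose δ hδ hδ2 using hloc
  obtain ⟨T, hT1, hT2, hT3⟩ := TopologicalSpace.countable_cover_nhdsWithin
    (f := fun p => Set.Ioo (p - δ p) (p + δ p)) (s := Set.Ico (mean q)⁻¹ 1) fun p _ =>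
      mem_nhdsWithin_of_mem_nhds (Ioo_mem_nhds (by linarith [hδ p]) (by linarith [hδ p]))
  filter_upwards [(ae_ball_iff hT2).2 fun p hp => hδ2 p (hT1 hp)] with t ht
  have hat : ∀ p ∈ Set.Ico (mean q)⁻¹ 1, ∃ F : ℝ → ℝ, AnalyticAt ℝ F p ∧
      ∀ᶠ r in 𝓝 p, AnalyticAt ℝ F r ∧ ((mean q)⁻¹ ≤ r → r < 1 → F r = quenched t r) := by
    intro p hp
    obtain ⟨p₀, hp₀, hpp⟩ := Set.mem_iUnion₂.1 (hT3 hp)
    obtain ⟨F, hF1, hF2⟩ := ht p₀ hp₀
    refine ⟨F, hF1 p hpp, ?_⟩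
    filter_upwards [Ioo_mem_nhds hpp.1 hpp.2] with r hr
    exact ⟨hF1 r hr, hF2 r hr⟩
  obtain ⟨F₀, hF₀, hF₀'⟩ := hat (mean q)⁻¹ ⟨le_rfl, hpc1⟩
  obtain ⟨ε, hε, hf⟩ := Metric.eventually_nhds_iff.1 hF₀'
  refine ⟨(mean q)⁻¹ - ε, by linarith,
    fun p => if p < (mean q)⁻¹ then F₀ p else quenched t p, ?_, ?_⟩
  · intro p hp
    rcases lt_trichotomy p (mean q)⁻¹ with hlt | heq | hgt
    · have hd : dist p (mean q)⁻¹ < ε := by
        rw [Real.dist_eq, abs_of_neg (by linarith)]; linarith [hp.1]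
      refine (hf hd).1.congr ?_
      filter_upwards [Iio_mem_nhds hlt] with r hr
      have hr' : r < (mean q)⁻¹ := hr
      rw [if_pos hr']
    · subst heq
      refine hF₀.congr ?_
      filter_upwards [hF₀', Iio_mem_nhds hpc1] with r hr hr1
      by_cases hc : r < (mean q)⁻¹
      · rw [if_pos hc]
      · rw [if_neg hc]; exact hr.2 (not_lt.1 hc) hr1
    · obtain ⟨F, hF, hF'⟩ := hat p ⟨hgt.le, hp.2⟩
      refine hF.congr ?_
      filter_upwards [hF', Iio_mem_nhds hp.2, Ioi_mem_nhds hgt] with r hr hr1 hr2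
      have hr2' : (mean q)⁻¹ < r := hr2
      rw [if_neg (not_lt.2 hr2'.le)]
      exact hr.2 hr2'.le hr1
  · intro p hp
    exact if_neg (not_lt.2 hp.1)

end Pool.Agent.V11320.QS
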