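import Pool.Agent.V11320.QS.Branch

/-!
# Second moments
-/

open MeasureTheory ProbabilityTheory Filter Topology
open scoped ENNReal ComplexConjugate

namespace Pool.Agent.V11320.QS

variable {q : PMF ℕ}

/-- The product over the children of the root. -/
noncomputable def PR (U : (List ℕ → ℕ) → ℂ) (t : List ℕ → ℕ) : ℂ :=
  ∏ i ∈ Finset.range (t []), U (sh i t)

lemma measurable_PR {U : (List ℕ → ℕ) → ℂ} (hU : Measurable U) : Measurable (PR U) := by
  have : PR U = (fun p : ℕ × (List ℕ → ℕ) => ∏ i ∈ Finset.range p.1, U (sh i p.2)) ∘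
        fun t => (t [], t) := rfl
  rw [this]
  refine Measurable.comp ?_ (measurable_root.prodMk measurable_id)
  refine measurable_from_prod_countable_right fun k => ?_
  show Measurable fun y : List ℕ → ℕ => ∏ i ∈ Finset.range k, U (sh i y)
  exact Finset.measurable_fun_prod _ fun i _ => hU.comp (measurable_sh i)

lemma PR_mul_conj (U V : (List ℕ → ℕ) → ℂ) (t : List ℕ → ℕ) :
    PR (fun t => U t * conj (V t)) t = PR U t * conj (PR V t) := by
  unfold PR
  rw [Finset.prod_mul_distrib, map_prod]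

/-- The constant of the recursion for the second moments. -/
noncomputable def cc (q : PMF ℕ) (z w : ℂ) : ℝ :=
  ‖1 - z‖ ^ 2 + 2 * ((1 - z) * conj (z * phi q w)).re

/-- The second moments. -/
noncomputable def vv (q : PMF ℕ) (z w : ℂ) : ℕ → ℝ
  | 0 => ‖w‖ ^ 2
  | n + 1 => cc q z w + ‖z‖ ^ 2 * phiR q (vv q z w n)

/-- The assumptions on the parameters. -/
structure Good (q : PMF ℕ) (R : ℝ) (z w : ℂ) (ρ : ℝ) : Prop where
  hR : 1 ≤ R
  hs : Summable fun k => aw q k * R ^ k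
  hw : w = 1 - z + z * phi q w
  hρ : ρ ≤ R
  hwρ : ‖w‖ ^ 2 ≤ ρ
  hΨ : cc q z w + ‖z‖ ^ 2 * phiR q ρ ≤ ρ

variable {R ρ : ℝ} {z w : ℂ}

lemma cross_bound {U V : (List ℕ → ℕ) → ℂ} (hU : MemLp U 2 (gw q)) (hV : MemLp V 2 (gw q))
    (hU2 : ∫ t, ‖U t‖ ^ 2 ∂gw q ≤ ρ) (hV2 : ∫ t, ‖V t‖ ^ 2 ∂gw q ≤ ρ) :
    Integrable (fun t => U t * conj (V t)) (gw q) ∧ ∫ t, ‖U t * conj (V t)‖ ∂gw q ≤ ρ := by
  have hc : MemLp (fun t => conj (V t)) 2 (gw q) := by
    refine MemLp.of_le hV ?_ (ae_of_all _ fun t => by simp)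
    exact (continuous_star.comp_aestronglyMeasurable hV.aestronglyMeasurable)
  have hi : Integrable (fun t => U t * conj (V t)) (gw q) := MemLp.integrable_mul hU hc
  refine ⟨hi, ?_⟩
  have h1 := hU.integrable_norm_pow (by norm_num : (2 : ℕ) ≠ 0)
  have h2 := hV.integrable_norm_pow (by norm_num : (2 : ℕ) ≠ 0)
  calc ∫ t, ‖U t * conj (V t)‖ ∂gw q ≤ ∫ t, (‖U t‖ ^ 2 + ‖V t‖ ^ 2) / 2 ∂gw q := by
        refine integral_mono hi.norm ((h1.add h2).div_const 2) fun t => ?_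
        simp only [norm_mul, RCLike.norm_conj]
        nlinarith [sq_nonneg (‖U t‖ - ‖V t‖)]
    _ = (∫ t, ‖U t‖ ^ 2 ∂gw q + ∫ t, ‖V t‖ ^ 2 ∂gw q) / 2 := by
        rw [integral_div, integral_add h1 h2]
    _ ≤ ρ := by linarith

lemma int_self (U : (List ℕ → ℕ) → ℂ) :
    ∫ t, U t * conj (U t) ∂gw q = ((∫ t, ‖U t‖ ^ 2 ∂gw q : ℝ) : ℂ) := by
  rw [← integral_complex_ofReal]
  congr 1
  funext t
  rw [Complex.mul_conj, Complex.normSq_eq_norm_sq]

lemma prod_key (hG : Good q R z w ρ) {X : (List ℕ → ℕ) → ℂ} (hXm : Measurable X)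
    (hX : MemLp X 2 (gw q)) (hX2 : ∫ t, ‖X t‖ ^ 2 ∂gw q ≤ ρ) (hX1 : ∫ t, X t ∂gw q = w) :
    MemLp (PR X) 2 (gw q) ∧ ∫ t, PR X t ∂gw q = phi q w := by
  have hR0 : (0 : ℝ) ≤ R := zero_le_one.trans hG.hR
  have hb := cross_bound hX hX hX2 hX2
  have h := branch q hR0 hG.hs (F := fun t => X t * conj (X t))
    (hXm.mul (continuous_star.measurable.comp hXm)) hb.1 (hb.2.trans hG.hρ)
  constructor
  · rw [memLp_two_iff_integrable_sq_norm (measurable_PR hXm).aestronglyMeasurable]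
    refine h.1.norm.congr (ae_of_all _ fun t => ?_)
    have := PR_mul_conj X X t
    unfold PR at this
    simp only [this]
    unfold PR
    rw [norm_mul, RCLike.norm_conj, sq]
  · have hi : Integrable X (gw q) := hX.integrable (by norm_num)
    have hn : ∫ t, ‖X t‖ ∂gw q ≤ R := by
      have h1 := hX.integrable_norm_pow (by norm_num : (2 : ℕ) ≠ 0)
      calc ∫ t, ‖X t‖ ∂gw q ≤ ∫ t, (1 + ‖X t‖ ^ 2) / 2 ∂gw q := by
            refine integral_mono hi.norm (((integrable_const _).add h1).div_const 2) fun t => ?_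
            simp only
            nlinarith [sq_nonneg (‖X t‖ - 1)]
        _ = (1 + ∫ t, ‖X t‖ ^ 2 ∂gw q) / 2 := by
            rw [integral_div, integral_add (integrable_const _) h1]; simp
        _ ≤ R := by linarith [hG.hρ, hG.hR]
    have h' := branch q hR0 hG.hs hXm hi hn
    rw [← hX1]; exact h'.2

lemma int_lin {f g h : (List ℕ → ℕ) → ℂ} (hf : Integrable f (gw q)) (hg : Integrable g (gw q))
    (hh : Integrable h (gw q)) (c0 c1 c2 c3 : ℂ) :
    ∫ t, (c0 + c1 * f t + c2 * g t + c3 * h t) ∂gw q =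
      c0 + c1 * ∫ t, f t ∂gw q + c2 * ∫ t, g t ∂gw q + c3 * ∫ t, h t ∂gw q := by
  have i1 : Integrable (fun t => c0 + c1 * f t) (gw q) :=
    (integrable_const c0).add (hf.const_mul c1)
  have i2 : Integrable (fun t => c0 + c1 * f t + c2 * g t) (gw q) := i1.add (hg.const_mul c2)
  rw [integral_add i2 (hh.const_mul c3), integral_add i1 (hg.const_mul c2),
    integral_add (integrable_const c0) (hf.const_mul c1), integral_const_mul,
    integral_const_mul, integral_const_mul]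
  simp

lemma int_aff {A : (List ℕ → ℕ) → ℂ} (iU : Integrable A (gw q)) :
    ∫ t, (1 - z + z * A t) ∂gw q = 1 - z + z * ∫ t, A t ∂gw q := by
  rw [integral_add (integrable_const _) (iU.const_mul z), integral_const_mul]
  simp

lemma memLp_aff {A : (List ℕ → ℕ) → ℂ} (hA : MemLp A 2 (gw q)) :
    MemLp (fun t => 1 - z + z * A t) 2 (gw q) := by
  have h1 : MemLp (fun _ : List ℕ → ℕ => (1 - z : ℂ)) 2 (gw q) := memLp_const _
  exact h1.add (hA.const_mul z)

lemma branch2 (hG : Good q R z w ρ) {U V : (List ℕ → ℕ) → ℂ} (hUm : Measurable U)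
    (hVm : Measurable V) (hU : MemLp U 2 (gw q)) (hV : MemLp V 2 (gw q))
    (hU2 : ∫ t, ‖U t‖ ^ 2 ∂gw q ≤ ρ) (hV2 : ∫ t, ‖V t‖ ^ 2 ∂gw q ≤ ρ) :
    Integrable (fun t => PR U t * conj (PR V t)) (gw q) ∧
    ∫ t, PR U t * conj (PR V t) ∂gw q = phi q (∫ t, U t * conj (V t) ∂gw q) := by
  have hR0 : (0 : ℝ) ≤ R := zero_le_one.trans hG.hR
  have hcb := cross_bound hU hV hU2 hV2
  have hm : Measurable (fun t => U t * conj (V t)) :=
    hUm.mul (continuous_star.measurable.comp hVm)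
  have hb := branch q hR0 hG.hs hm hcb.1 (hcb.2.trans hG.hρ)
  have e : (fun t : List ℕ → ℕ => ∏ i ∈ Finset.range (t []), U (sh i t) * conj (V (sh i t))) =
      fun t => PR U t * conj (PR V t) := by
    funext t; exact PR_mul_conj U V t
  rw [e] at hb
  exact hb

lemma expand_int {A B : (List ℕ → ℕ) → ℂ} (iU : Integrable A (gw q)) (iV : Integrable B (gw q))
    (iUV : Integrable (fun t => A t * conj (B t)) (gw q)) {a c : ℂ}
    (hA : ∫ t, A t ∂gw q = a) (hB : ∫ t, B t ∂gw q = a)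
    (hAB : ∫ t, A t * conj (B t) ∂gw q = c) :
    ∫ t, (1 - z + z * A t) * conj (1 - z + z * B t) ∂gw q =
      ((‖1 - z‖ ^ 2 + 2 * ((1 - z) * conj (z * a)).re : ℝ) : ℂ) + (‖z‖ ^ 2 : ℝ) * c := by
  have e2 : ∀ t, (1 - z + z * A t) * conj (1 - z + z * B t) =
      (1 - z) * conj (1 - z) + (1 - z) * conj z * conj (B t) +
      conj (1 - z) * z * A t + (z * conj z) * (A t * conj (B t)) := by
    intro t; simp only [map_add, map_mul]; ring
  have iVc : Integrable (fun t => conj (B t)) (gw q) :=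
    Complex.conjCLE.toContinuousLinearMap.integrable_comp iV
  simp only [e2]
  rw [int_lin iVc iU iUV, hAB, hA, integral_conj, hB]
  have e3 : z * conj z = ((‖z‖ ^ 2 : ℝ) : ℂ) := by
    rw [Complex.mul_conj, Complex.normSq_eq_norm_sq]
  have e4 : (1 - z) * conj (1 - z) = ((‖1 - z‖ ^ 2 : ℝ) : ℂ) := by
    rw [Complex.mul_conj, Complex.normSq_eq_norm_sq]
  rw [e3, e4]
  have e5 : ((2 * ((1 - z) * conj (z * a)).re : ℝ) : ℂ) =
      (1 - z) * conj z * conj a + conj (1 - z) * z * a := by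
    have h := Complex.add_conj ((1 - z) * conj (z * a))
    rw [← h]
    simp only [map_mul, Complex.conj_conj]
    ring
  rw [Complex.ofReal_add, e5]
  ring

lemma step (hG : Good q R z w ρ) {U V : (List ℕ → ℕ) → ℂ} (hUm : Measurable U)
    (hVm : Measurable V) (hU : MemLp U 2 (gw q)) (hV : MemLp V 2 (gw q))
    (hU2 : ∫ t, ‖U t‖ ^ 2 ∂gw q ≤ ρ) (hV2 : ∫ t, ‖V t‖ ^ 2 ∂gw q ≤ ρ)
    (hU1 : ∫ t, U t ∂gw q = w) (hV1 : ∫ t, V t ∂gw q = w) :
    MemLp (fun t => 1 - z + z * PR U t) 2 (gw q) ∧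
    ∫ t, (1 - z + z * PR U t) ∂gw q = w ∧
    ∫ t, (1 - z + z * PR U t) * conj (1 - z + z * PR V t) ∂gw q =
      (cc q z w : ℂ) + (‖z‖ ^ 2 : ℝ) * phi q (∫ t, U t * conj (V t) ∂gw q) := by
  obtain ⟨hPU, hPU1⟩ := prod_key hG hUm hU hU2 hU1
  obtain ⟨hPV, hPV1⟩ := prod_key hG hVm hV hV2 hV1
  have iU : Integrable (PR U) (gw q) := hPU.integrable (by norm_num)
  have iV : Integrable (PR V) (gw q) := hPV.integrable (by norm_num)
  have hb := branch2 hG hUm hVm hU hV hU2 hV2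
  refine ⟨memLp_aff hPU, ?_, ?_⟩
  · rw [int_aff iU, hPU1]
    exact hG.hw.symm
  · exact expand_int iU iV hb.1 hPU1 hPV1 hb.2

lemma phiR_mono (hG : Good q R z w ρ) {x y : ℝ} (h0 : 0 ≤ x) (hxy : x ≤ y) (hy : y ≤ R) :
    phiR q x ≤ phiR q y := by
  have hR0 : (0 : ℝ) ≤ R := zero_le_one.trans hG.hR
  have hS : ∀ {x : ℝ}, 0 ≤ x → x ≤ R → Summable fun k => aw q k * x ^ k := fun h0 h1 =>
    Summable.of_nonneg_of_le (fun k => mul_nonneg (aw_nonneg q k) (pow_nonneg h0 k))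
      (fun k => mul_le_mul_of_nonneg_left (pow_le_pow_left₀ h0 h1 k) (aw_nonneg q k)) hG.hs
  exact Summable.tsum_le_tsum (fun k => mul_le_mul_of_nonneg_left
    (pow_le_pow_left₀ h0 hxy k) (aw_nonneg q k)) (hS h0 (hxy.trans hy)) (hS (h0.trans hxy) hy)

lemma moments (hG : Good q R z w ρ) (n : ℕ) :
    MemLp (W z w n) 2 (gw q) ∧ ∫ t, W z w n t ∂gw q = w ∧
    ∫ t, W z w n t * conj (W z w n t) ∂gw q = (vv q z w n : ℂ) ∧
    0 ≤ vv q z w n ∧ vv q z w n ≤ ρ := by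
  induction n with
  | zero =>
    refine ⟨memLp_const _, by simp [W], ?_, by simp [vv], hG.hwρ⟩
    simp [W, vv, Complex.mul_conj, Complex.normSq_eq_norm_sq]
  | succ n ih =>
    obtain ⟨h1, h2, h3, h4, h5⟩ := ih
    have h6 : ∫ t, ‖W z w n t‖ ^ 2 ∂gw q = vv q z w n := by
      rw [int_self] at h3
      exact_mod_cast h3
    have hm := measurable_W1 z w n
    obtain ⟨s1, s2, s3⟩ := step hG hm hm h1 h1 (h6.le.trans h5) (h6.le.trans h5) h2 h2
    rw [h3, phi_ofReal] at s3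
    have s3' : ∫ t, W z w (n + 1) t * conj (W z w (n + 1) t) ∂gw q =
        (vv q z w (n + 1) : ℂ) := by
      rw [vv]; push_cast
      refine Eq.trans ?_ (s3.trans (by push_cast; ring))
      rfl
    refine ⟨s1, s2, s3', ?_, ?_⟩
    · rw [int_self] at s3'
      have h7 : ∫ t, ‖W z w (n + 1) t‖ ^ 2 ∂gw q = vv q z w (n + 1) := by exact_mod_cast s3'
      rw [← h7]
      exact integral_nonneg fun t => sq_nonneg _
    · rw [vv]
      refine le_trans ?_ hG.hΨ
      have := phiR_mono hG h4 h5 hG.hρ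
      gcongr

lemma norm_sq_integral (hG : Good q R z w ρ) (n : ℕ) :
    ∫ t, ‖W z w n t‖ ^ 2 ∂gw q = vv q z w n := by
  obtain ⟨h1, h2, h3, h4, h5⟩ := moments hG n
  rw [int_self] at h3
  exact_mod_cast h3

lemma cross (hG : Good q R z w ρ) (n : ℕ) :
    ∫ t, W z w (n + 1) t * conj (W z w n t) ∂gw q = (vv q z w n : ℂ) := by
  induction n with
  | zero =>
    have h := (moments hG 1).2.1
    simp only [W, vv] at h ⊢
    rw [integral_mul_const, h, Complex.mul_conj, Complex.normSq_eq_norm_sq]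
  | succ n ih =>
    obtain ⟨h1, h2, h3, h4, h5⟩ := moments hG n
    obtain ⟨k1, k2, k3, k4, k5⟩ := moments hG (n + 1)
    obtain ⟨s1, s2, s3⟩ := step hG (measurable_W1 z w (n + 1)) (measurable_W1 z w n) k1 h1
      ((norm_sq_integral hG (n + 1)).le.trans k5) ((norm_sq_integral hG n).le.trans h5) k2 h2
    rw [ih, phi_ofReal] at s3
    rw [vv]
    refine Eq.trans ?_ (s3.trans (by push_cast; ring))
    rfl

lemma diff_sq (hG : Good q R z w ρ) (n : ℕ) :
    ∫ t, ‖W z w (n + 1) t - W z w n t‖ ^ 2 ∂gw q = vv q z w (n + 1) - vv q z w n := by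
  obtain ⟨h1, h2, h3, h4, h5⟩ := moments hG n
  obtain ⟨k1, k2, k3, k4, k5⟩ := moments hG (n + 1)
  have hc := cross hG n
  have hcb := cross_bound k1 h1 ((norm_sq_integral hG (n + 1)).le.trans k5)
    ((norm_sq_integral hG n).le.trans h5)
  have i1 := k1.integrable_norm_pow (by norm_num : (2 : ℕ) ≠ 0)
  have i2 := h1.integrable_norm_pow (by norm_num : (2 : ℕ) ≠ 0)
  have e : ∀ t, ‖W z w (n + 1) t - W z w n t‖ ^ 2 = ‖W z w (n + 1) t‖ ^ 2 +
      ‖W z w n t‖ ^ 2 - 2 * (W z w (n + 1) t * conj (W z w n t)).re := by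
    intro t
    rw [← Complex.normSq_eq_norm_sq, ← Complex.normSq_eq_norm_sq, ← Complex.normSq_eq_norm_sq,
      Complex.normSq_sub]
  have hre : ∫ t, (W z w (n + 1) t * conj (W z w n t)).re ∂gw q = vv q z w n := by
    have := integral_re hcb.1
    simp only [RCLike.re_to_complex] at this
    rw [this, hc]; simp
  have i3 : Integrable (fun t => 2 * (W z w (n + 1) t * conj (W z w n t)).re) (gw q) :=
    hcb.1.re.const_mul 2
  calc ∫ t, ‖W z w (n + 1) t - W z w n t‖ ^ 2 ∂gw q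
      = ∫ t, (‖W z w (n + 1) t‖ ^ 2 + ‖W z w n t‖ ^ 2 -
          2 * (W z w (n + 1) t * conj (W z w n t)).re) ∂gw q := by simp only [e]
    _ = ∫ t, ‖W z w (n + 1) t‖ ^ 2 ∂gw q + ∫ t, ‖W z w n t‖ ^ 2 ∂gw q -
          2 * ∫ t, (W z w (n + 1) t * conj (W z w n t)).re ∂gw q := by
        rw [integral_sub (f := fun t => ‖W z w (n + 1) t‖ ^ 2 + ‖W z w n t‖ ^ 2) (i1.add i2) i3,
          integral_add i1 i2, integral_const_mul]
    _ = _ := by rw [norm_sq_integral hG, norm_sq_integral hG, hre]; ring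

/-- Geometric decay. -/
lemma diff_bound (hG : Good q R z w ρ) {θ : ℝ} (hθ : 0 ≤ θ)
    (hL : ∀ x y, 0 ≤ x → x ≤ y → y ≤ ρ → ‖z‖ ^ 2 * (phiR q y - phiR q x) ≤ θ * (y - x)) (n : ℕ) :
    vv q z w (n + 1) - vv q z w n ≤ θ ^ n * ρ ∧ vv q z w n ≤ vv q z w (n + 1) := by
  have hle : ∀ n, vv q z w n ≤ vv q z w (n + 1) := fun n => by
    have := diff_sq hG n
    have h2 : 0 ≤ ∫ t, ‖W z w (n + 1) t - W z w n t‖ ^ 2 ∂gw q :=
      integral_nonneg fun t => sq_nonneg _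
    linarith
  refine ⟨?_, hle n⟩
  induction n with
  | zero =>
    have h0 := (moments hG 0).2.2.2.1
    have h1 := (moments hG 1).2.2.2.2
    rw [zero_add, pow_zero, one_mul]
    linarith
  | succ n ih =>
    have h := hL (vv q z w n) (vv q z w (n + 1)) (moments hG n).2.2.2.1 (hle n)
      (moments hG (n + 1)).2.2.2.2
    calc vv q z w (n + 1 + 1) - vv q z w (n + 1)
        = ‖z‖ ^ 2 * (phiR q (vv q z w (n + 1)) - phiR q (vv q z w n)) := by
          show cc q z w + ‖z‖ ^ 2 * phiR q (vv q z w (n + 1)) -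
            (cc q z w + ‖z‖ ^ 2 * phiR q (vv q z w n)) = _
          ring
      _ ≤ θ * (vv q z w (n + 1) - vv q z w n) := h
      _ ≤ θ * (θ ^ n * ρ) := mul_le_mul_of_nonneg_left ih hθ
      _ = θ ^ (n + 1) * ρ := by ring

lemma diff_L1 (hG : Good q R z w ρ) {θ : ℝ} (hθ : 0 ≤ θ)
    (hL : ∀ x y, 0 ≤ x → x ≤ y → y ≤ ρ → ‖z‖ ^ 2 * (phiR q y - phiR q x) ≤ θ * (y - x)) (n : ℕ) :
    Integrable (fun t => W z w (n + 1) t - W z w n t) (gw q) ∧
    ∫ t, ‖W z w (n + 1) t - W z w n t‖ ∂gw q ≤ √(θ ^ n * ρ) := by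
  obtain ⟨h1, h2, h3, h4, h5⟩ := moments hG n
  obtain ⟨k1, k2, k3, k4, k5⟩ := moments hG (n + 1)
  have hd : MemLp (fun t => W z w (n + 1) t - W z w n t) 2 (gw q) := k1.sub h1
  have hi : Integrable (fun t => W z w (n + 1) t - W z w n t) (gw q) :=
    hd.integrable (by norm_num)
  refine ⟨hi, ?_⟩
  have hb := (diff_bound hG hθ hL n).1
  rw [← diff_sq hG n] at hb
  refine Real.le_sqrt_of_sq_le (le_trans ?_ hb)
  have hdn : MemLp (fun t => ‖W z w (n + 1) t - W z w n t‖) 2 (gw q) := hd.norm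
  have hv := ProbabilityTheory.variance_nonneg
    (fun t => ‖W z w (n + 1) t - W z w n t‖) (gw q)
  rw [ProbabilityTheory.variance_eq_sub hdn] at hv
  simpa using hv

end Pool.Agent.V11320.QS
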