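import Pool.Agent.V11320.QS.Series
import Pool.Agent.V11320.QS.Moments

/-!
# The analytic branch near a real parameter
-/

open MeasureTheory ProbabilityTheory Filter Topology
open scoped ENNReal ComplexConjugate

namespace Pool.Agent.V11320.QS

variable {q : PMF ℕ} {R : ℝ}

lemma mem_ball_of (h : EM q R) {x : ℝ} (h0 : 0 < x) (h1 : x ≤ 1) :
    (x : ℂ) ∈ Metric.ball (0 : ℂ) R := by
  rw [mem_ball_zero_iff, Complex.norm_real, Real.norm_eq_abs, abs_of_pos h0]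
  exact h1.trans_lt h.hR

lemma chi_analytic (h : EM q R) {x : ℝ} (h0 : 0 < x) (h1 : x ≤ 1) :
    AnalyticAt ℂ (chi q) (x : ℂ) :=
  (chi_diff h).analyticAt (Metric.isOpen_ball.mem_nhds (mem_ball_of h h0 h1))

lemma deriv_chi_ne (h : EM q R) (hm : 1 < mean q) {x : ℝ} (h0 : 0 < x) (h1 : x ≤ 1) :
    deriv (chi q) (x : ℂ) ≠ 0 := by
  obtain ⟨k, hk, hk0⟩ := exists_two hm
  have hd := (chi_analytic h h0 h1).differentiableAt.hasDerivAt
  have hr := hd.real_of_complex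
  have e : (fun y : ℝ => (chi q (y : ℂ)).re) = chiR q := by
    funext y; rw [chi_ofReal]; simp
  rw [e] at hr
  have ht := (hasDerivAt_iff_tendsto_slope.1 hr).mono_left
    (nhdsWithin_mono x (fun y (hy : x < y) => hy.ne') : 𝓝[>] x ≤ 𝓝[≠] x)
  have hge : aw q k ≤ (deriv (chi q) (x : ℂ)).re := by
    refine ge_of_tendsto ht ?_
    have h2 : ∀ᶠ y in 𝓝[>] x, y < R := nhdsWithin_le_nhds (Iio_mem_nhds (h1.trans_lt h.hR))
    filter_upwards [h2, self_mem_nhdsWithin] with y hy1 hy2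
    have hy2' : x < y := hy2
    rw [slope_def_field, le_div_iff₀ (sub_pos.2 hy2')]
    exact chiR_gap h hk h0.le hy2'.le hy1.le
  intro hc
  rw [hc] at hge
  simp only [Complex.zero_re] at hge
  linarith

lemma local_branch (h : EM q R) (hm : 1 < mean q) {p₀ : ℝ} (hp : (mean q)⁻¹ ≤ p₀)
    (hp1 : p₀ < 1) :
    ∃ g : ℂ → ℂ, AnalyticAt ℂ g p₀ ∧
      (∃ w₀ : ℝ, 0 < w₀ ∧ w₀ ≤ 1 ∧ g p₀ = w₀ ∧ chiR q w₀ = p₀⁻¹) ∧
      (∀ᶠ z in 𝓝 (p₀ : ℂ), g z = 1 - z + z * phi q (g z)) ∧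
      (∀ᶠ p : ℝ in 𝓝 p₀, (mean q)⁻¹ ≤ p → p < 1 →
        ∃ x : ℝ, 0 < x ∧ x ≤ 1 ∧ chiR q x = p⁻¹ ∧ g p = x) := by
  have hm0 : 0 < mean q := zero_lt_one.trans hm
  have hp0 : 0 < p₀ := (inv_pos.2 hm0).trans_le hp
  obtain ⟨w₀, hw0, hw1, hw⟩ := exists_wstar h hm hp hp1
  have hcw : chi q (w₀ : ℂ) = ((p₀ : ℂ))⁻¹ := by rw [chi_ofReal, hw]; push_cast; rfl
  have hcne : chi q (w₀ : ℂ) ≠ 0 := by
    rw [hcw]; exact inv_ne_zero (by exact_mod_cast hp0.ne')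
  have hA : AnalyticAt ℂ (fun w => (chi q w)⁻¹) (w₀ : ℂ) := (chi_analytic h hw0 hw1).inv hcne
  have hd : deriv (fun w => (chi q w)⁻¹) (w₀ : ℂ) ≠ 0 := by
    rw [((chi_analytic h hw0 hw1).differentiableAt.hasDerivAt.fun_inv hcne).deriv]
    exact div_ne_zero (neg_ne_zero.2 (deriv_chi_ne h hm hw0 hw1)) (pow_ne_zero 2 hcne)
  have hH0 : (chi q (w₀ : ℂ))⁻¹ = (p₀ : ℂ) := by rw [hcw, inv_inv]
  obtain ⟨g, hg⟩ : ∃ g, g = hA.hasStrictDerivAt.localInverse _ _ _ hd := ⟨_, rfl⟩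
  have g1 : AnalyticAt ℂ g p₀ := by
    have := hA.analyticAt_localInverse hd
    rw [← hg] at this
    simpa only [hH0] using this
  have g2 : ∀ᶠ z in 𝓝 (p₀ : ℂ), (chi q (g z))⁻¹ = z := by
    have := hA.hasStrictDerivAt.eventually_right_inverse hd
    rw [← hg] at this
    simpa only [hH0] using this
  have g3 : ∀ᶠ w in 𝓝 (w₀ : ℂ), g ((chi q w)⁻¹) = w := by
    have := hA.hasStrictDerivAt.eventually_left_inverse hd
    rw [← hg] at this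
    exact this
  have g4 : g p₀ = w₀ := by have := g3.self_of_nhds; rwa [hH0] at this
  refine ⟨g, g1, ⟨w₀, hw0, hw1, g4, hw⟩, ?_, ?_⟩
  · have e1 : ∀ᶠ z in 𝓝 (p₀ : ℂ), z ≠ 0 :=
      isOpen_ne.mem_nhds (show (p₀ : ℂ) ≠ 0 by exact_mod_cast hp0.ne')
    have e2 : ∀ᶠ z in 𝓝 (p₀ : ℂ), ‖g z‖ < R := by
      refine (continuous_norm.continuousAt.comp g1.continuousAt).eventually (Iio_mem_nhds ?_)
      show ‖g p₀‖ < R
      rw [g4]; exact mem_ball_zero_iff.1 (mem_ball_of h hw0 hw1)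
    filter_upwards [g2, e1, e2] with z h1 h2 h3
    have h4 := phi_eq h h3.le
    have h5 : chi q (g z) = z⁻¹ := inv_eq_iff_eq_inv.1 h1
    rw [h5] at h4
    have h6 : phi q (g z) = 1 + (g z - 1) * z⁻¹ := by rw [← h4]; ring
    rw [h6]
    field_simp
    ring
  · obtain ⟨k, hk, hk0⟩ := exists_two hm
    obtain ⟨ε, hε, hε2⟩ := Metric.eventually_nhds_iff.1 g3
    have e1 : ∀ᶠ p : ℝ in 𝓝 p₀, |p⁻¹ - p₀⁻¹| < ε * aw q k := by
      have hc : ContinuousAt (fun p : ℝ => p⁻¹) p₀ := continuousAt_inv₀ hp0.ne'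
      have := Metric.continuousAt_iff'.1 hc (ε * aw q k) (mul_pos hε hk0)
      simpa [Real.dist_eq] using this
    filter_upwards [e1] with p hpe hpm hp1'
    obtain ⟨x, hx0, hx1, hx⟩ := exists_wstar h hm hpm hp1'
    refine ⟨x, hx0, hx1, hx, ?_⟩
    have hclose : |x - w₀| < ε := by
      have hb : aw q k * |x - w₀| ≤ |p⁻¹ - p₀⁻¹| := by
        rcases le_total x w₀ with hle | hle
        · have := chiR_gap h hk hx0.le hle (hw1.trans h.hR.le)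
          rw [hx, hw] at this
          rw [abs_sub_comm, abs_of_nonneg (sub_nonneg.2 hle), abs_sub_comm]
          exact this.trans (le_abs_self _)
        · have := chiR_gap h hk hw0.le hle (hx1.trans h.hR.le)
          rw [hx, hw] at this
          rw [abs_of_nonneg (sub_nonneg.2 hle)]
          exact this.trans (le_abs_self _)
      have : aw q k * |x - w₀| < aw q k * ε := by linarith [mul_comm ε (aw q k)]
      exact lt_of_mul_lt_mul_left this hk0.le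
    have h3 := @hε2 (x : ℂ) (by
      rw [Complex.dist_eq, ← Complex.ofReal_sub, Complex.norm_real]; exact hclose)
    rw [chi_ofReal, hx] at h3
    push_cast at h3
    rwa [inv_inv] at h3

lemma local_good (h : EM q R) (hm : 1 < mean q) {p₀ : ℝ} (hp : (mean q)⁻¹ ≤ p₀)
    (hp1 : p₀ < 1) :
    ∃ (g : ℂ → ℂ) (ρ θ : ℝ), AnalyticAt ℂ g p₀ ∧ 0 ≤ θ ∧ θ < 1 ∧ 0 ≤ ρ ∧
      (∀ᶠ z in 𝓝 (p₀ : ℂ), Good q R z (g z) ρ ∧
        ∀ x y, 0 ≤ x → x ≤ y → y ≤ ρ → ‖z‖ ^ 2 * (phiR q y - phiR q x) ≤ θ * (y - x)) ∧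
      (∀ᶠ p : ℝ in 𝓝 p₀, (mean q)⁻¹ ≤ p → p < 1 →
        ∃ x : ℝ, 0 < x ∧ x ≤ 1 ∧ chiR q x = p⁻¹ ∧ g p = x) := by
  have hm0 : 0 < mean q := zero_lt_one.trans hm
  have hp0 : 0 < p₀ := (inv_pos.2 hm0).trans_le hp
  obtain ⟨g, g1, ⟨w₀, hw0, hw1, g4, hw⟩, g5, g6⟩ := local_branch h hm hp hp1
  have hwR : w₀ < R := hw1.trans_lt h.hR
  have hDc : ContinuousAt (DD q) w₀ := (DD_cont h).continuousAt (Icc_mem_nhds hw0 hwR)
  have hD0 : p₀ ^ 2 * DD q w₀ < (1 + p₀) / 2 := by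
    have := DD_le_chiR h hw0.le hw1
    rw [hw] at this
    have h2 : p₀ ^ 2 * DD q w₀ ≤ p₀ ^ 2 * p₀⁻¹ := mul_le_mul_of_nonneg_left this (sq_nonneg _)
    have h3 : p₀ ^ 2 * p₀⁻¹ = p₀ := by field_simp
    linarith
  obtain ⟨ρ, ⟨hρ1, hρ2⟩, hρ3⟩ : ∃ ρ, (p₀ ^ 2 * DD q ρ < (1 + p₀) / 2 ∧ ρ < R) ∧ w₀ < ρ := by
    have e1 : ∀ᶠ s in 𝓝 w₀, p₀ ^ 2 * DD q s < (1 + p₀) / 2 :=
      (hDc.const_mul (p₀ ^ 2)).eventually (Iio_mem_nhds hD0)
    have e2 : ∀ᶠ s in 𝓝 w₀, s < R := Iio_mem_nhds hwR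
    exact (((e1.and e2).filter_mono (nhdsWithin_le_nhds (s := Set.Ioi w₀))).and
      self_mem_nhdsWithin).exists
  have hρ0 : 0 ≤ ρ := (hw0.trans hρ3).le
  refine ⟨g, ρ, (1 + p₀) / 2, g1, by linarith, by linarith, hρ0, ?_, g6⟩
  have hgc : ContinuousAt g (p₀ : ℂ) := g1.continuousAt
  -- the value at the centre
  have hval : ‖(1 : ℂ) - p₀‖ ^ 2 + 2 * ((1 - (p₀ : ℂ)) * conj (g p₀ - 1 + p₀)).re +
      ‖(p₀ : ℂ)‖ ^ 2 * phiR q ρ < ρ := by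
    have e1 : ‖(1 : ℂ) - p₀‖ = 1 - p₀ := by
      rw [← Complex.ofReal_one, ← Complex.ofReal_sub, Complex.norm_real, Real.norm_eq_abs,
        abs_of_pos (by linarith)]
    have e2 : ((1 - (p₀ : ℂ)) * conj (g p₀ - 1 + p₀)).re = (1 - p₀) * (w₀ - 1 + p₀) := by
      rw [g4]
      have : (1 - (p₀ : ℂ)) * conj ((w₀ : ℂ) - 1 + p₀) =
          (((1 - p₀) * (w₀ - 1 + p₀) : ℝ) : ℂ) := by
        rw [map_add, map_sub, Complex.conj_ofReal, Complex.conj_ofReal, map_one]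
        push_cast; ring
      rw [this, Complex.ofReal_re]
    have e3 : ‖(p₀ : ℂ)‖ = p₀ := by
      rw [Complex.norm_real, Real.norm_eq_abs, abs_of_pos hp0]
    have e4 : phiR q w₀ = 1 + (w₀ - 1) * p₀⁻¹ := by
      have := phiR_eq h hw0.le hwR.le
      rw [hw] at this
      linarith
    have e5 := phiR_lip h hw0.le hρ3.le le_rfl hρ2.le
    have e6 : p₀ ^ 2 * phiR q ρ ≤ p₀ ^ 2 * phiR q w₀ + p₀ ^ 2 * DD q ρ * (ρ - w₀) := by
      nlinarith [sq_nonneg p₀]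
    have e7 : p₀ ^ 2 * phiR q w₀ = p₀ ^ 2 + p₀ * (w₀ - 1) := by
      rw [e4]; field_simp
    have e8 : p₀ ^ 2 * DD q ρ * (ρ - w₀) ≤ (1 + p₀) / 2 * (ρ - w₀) :=
      mul_le_mul_of_nonneg_right hρ1.le (by linarith)
    rw [e1, e2, e3]
    nlinarith [mul_nonneg (sub_nonneg.2 hp1.le) (sub_nonneg.2 hw1),
      mul_pos (sub_pos.2 hp1) (sub_pos.2 hρ3)]
  have hcont : ContinuousAt (fun z : ℂ => ‖(1 : ℂ) - z‖ ^ 2 +
      2 * ((1 - z) * conj (g z - 1 + z)).re + ‖z‖ ^ 2 * phiR q ρ) (p₀ : ℂ) := by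
    have hc1 : ContinuousAt (fun z : ℂ => conj (g z - 1 + z)) (p₀ : ℂ) :=
      Complex.continuous_conj.continuousAt.comp ((hgc.sub continuousAt_const).add continuousAt_id)
    have hc2 : ContinuousAt (fun z : ℂ => ((1 - z) * conj (g z - 1 + z)).re) (p₀ : ℂ) :=
      Complex.continuous_re.continuousAt.comp
        ((continuousAt_const.sub continuousAt_id).mul hc1)
    have hc3 : ContinuousAt (fun z : ℂ => ‖(1 : ℂ) - z‖ ^ 2) (p₀ : ℂ) := by fun_prop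
    have hc4 : ContinuousAt (fun z : ℂ => ‖z‖ ^ 2 * phiR q ρ) (p₀ : ℂ) := by fun_prop
    exact (hc3.add (continuousAt_const.mul hc2)).add hc4
  have f1 := hcont.eventually (Iio_mem_nhds hval)
  have f2 : ∀ᶠ z in 𝓝 (p₀ : ℂ), ‖g z‖ ^ 2 < ρ := by
    have hc : ContinuousAt (fun z => ‖g z‖ ^ 2) (p₀ : ℂ) := hgc.norm.pow 2
    refine hc.eventually (Iio_mem_nhds ?_)
    show ‖g p₀‖ ^ 2 < ρ
    rw [g4, Complex.norm_real, Real.norm_eq_abs, abs_of_pos hw0]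
    nlinarith
  have f3 : ∀ᶠ z in 𝓝 (p₀ : ℂ), ‖z‖ ^ 2 * DD q ρ < (1 + p₀) / 2 := by
    have hc : ContinuousAt (fun z : ℂ => ‖z‖ ^ 2 * DD q ρ) (p₀ : ℂ) := by fun_prop
    refine hc.eventually (Iio_mem_nhds ?_)
    show ‖(p₀ : ℂ)‖ ^ 2 * DD q ρ < (1 + p₀) / 2
    rwa [Complex.norm_real, Real.norm_eq_abs, abs_of_pos hp0]
  filter_upwards [f1, f2, f3, g5] with z z1 z2 z3 z4
  have z5 : z * phi q (g z) = g z - 1 + z := by
    conv_rhs => rw [z4]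
    ring
  refine ⟨⟨h.hR.le, h.sum_pow (zero_le_one.trans h.hR.le) le_rfl, z4, hρ2.le, z2.le, ?_⟩, ?_⟩
  · unfold cc
    rw [z5]
    exact le_of_lt z1
  · intro x y hx hxy hy
    have := phiR_lip h hx hxy hy hρ2.le
    calc ‖z‖ ^ 2 * (phiR q y - phiR q x) ≤ ‖z‖ ^ 2 * (DD q ρ * (y - x)) :=
          mul_le_mul_of_nonneg_left this (sq_nonneg _)
      _ = ‖z‖ ^ 2 * DD q ρ * (y - x) := by ring
      _ ≤ _ := mul_le_mul_of_nonneg_right z3.le (sub_nonneg.2 hxy)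

end Pool.Agent.V11320.QS
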