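import Pool.Agent.V11320.QS.Split

/-!
# The quenched survival function as a limit of finite products
-/

open MeasureTheory ProbabilityTheory Filter Topology
open scoped ENNReal

namespace Pool.Agent.V11320.QS

/-- An open path of length `n` from the root. -/
def Reach : ℕ → (List ℕ → ℕ) → (List ℕ → Bool) → Prop
  | 0, _, _ => True
  | n + 1, t, η => ∃ i, i < t [] ∧ η [i] = true ∧ Reach n (sh i t) (sh i η)

/-- The recursion for the products. -/
def W {K : Type*} [CommRing K] (z w : K) : ℕ → (List ℕ → ℕ) → K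
  | 0, _ => w
  | n + 1, t => 1 - z + z * ∏ i ∈ Finset.range (t []), W z w n (sh i t)

lemma isVertex_nil (t : List ℕ → ℕ) : IsVertex t [] := by
  intro u i h
  have := h.length_le
  simp at this

lemma isVertex_cons (t : List ℕ → ℕ) (i : ℕ) (v : List ℕ) :
    IsVertex t (i :: v) ↔ i < t [] ∧ IsVertex (sh i t) v := by
  constructor
  · intro h
    refine ⟨h [] i (by simp), fun u j hj => h (i :: u) j ?_⟩
    simpa using hj
  · rintro ⟨h1, h2⟩ u j hj
    rcases u with _ | ⟨a, u⟩
    · simp only [List.nil_append, List.cons_prefix_cons] at hj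
      rw [hj.1]; exact h1
    · simp only [List.cons_append, List.cons_prefix_cons] at hj
      rw [hj.1]; exact h2 u j hj.2

lemma nil_mem (t : List ℕ → ℕ) (η : List ℕ → Bool) : [] ∈ cluster t η := by
  refine ⟨isVertex_nil t, fun u hu h => absurd (List.prefix_nil.1 h) hu⟩

lemma cons_mem (t : List ℕ → ℕ) (η : List ℕ → Bool) (i : ℕ) (v : List ℕ) :
    (i :: v) ∈ cluster t η ↔ i < t [] ∧ η [i] = true ∧ v ∈ cluster (sh i t) (sh i η) := by
  simp only [cluster, Set.mem_ofPred_eq, isVertex_cons]
  constructor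
  · rintro ⟨⟨h1, h2⟩, h3⟩
    refine ⟨h1, h3 [i] (by simp) (by simp), h2, fun u hu hp => ?_⟩
    exact h3 (i :: u) (by simp) (by simpa using hp)
  · rintro ⟨h1, h2, h3, h4⟩
    refine ⟨⟨h1, h3⟩, fun u hu hp => ?_⟩
    rcases u with _ | ⟨a, u⟩
    · exact absurd rfl hu
    · simp only [List.cons_prefix_cons] at hp
      obtain ⟨rfl, hp⟩ := hp
      rcases u with _ | ⟨b, u⟩
      · exact h2
      · exact h4 (b :: u) (by simp) hp

lemma reach_iff (n : ℕ) : ∀ (t : List ℕ → ℕ) (η : List ℕ → Bool),
    Reach n t η ↔ ∃ v ∈ cluster t η, v.length = n := by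
  induction n with
  | zero => intro t η; simp only [Reach, true_iff]; exact ⟨[], nil_mem t η, rfl⟩
  | succ n ih =>
    intro t η
    simp only [Reach, ih]
    constructor
    · rintro ⟨i, h1, h2, v, hv, hl⟩
      exact ⟨i :: v, (cons_mem _ _ _ _).2 ⟨h1, h2, hv⟩, by simp [hl]⟩
    · rintro ⟨v, hv, hl⟩
      rcases v with _ | ⟨i, v⟩
      · simp at hl
      · obtain ⟨h1, h2, h3⟩ := (cons_mem _ _ _ _).1 hv
        exact ⟨i, h1, h2, v, h3, by simpa using hl⟩

lemma reach_succ (n : ℕ) : ∀ (t : List ℕ → ℕ) (η : List ℕ → Bool),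
    Reach (n + 1) t η → Reach n t η := by
  induction n with
  | zero => intro t η _; trivial
  | succ n ih =>
    intro t η h
    obtain ⟨i, h1, h2, h3⟩ := h
    exact ⟨i, h1, h2, ih _ _ h3⟩

lemma reach_anti {m n : ℕ} (h : n ≤ m) (t : List ℕ → ℕ) (η : List ℕ → Bool) :
    Reach m t η → Reach n t η := by
  induction h with
  | refl => exact id
  | step _ ih => exact fun hm => ih (reach_succ _ _ _ hm)

lemma finite_vertices (n : ℕ) : ∀ t : List ℕ → ℕ, {v | IsVertex t v ∧ v.length < n}.Finite := by
  induction n with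
  | zero => intro t; simp
  | succ n ih =>
    intro t
    refine ((Set.finite_singleton ([] : List ℕ)).union ((Set.finite_lt_nat (t [])).biUnion
      fun i _ => (ih (sh i t)).image (List.cons i))).subset ?_
    rintro v ⟨hv, hl⟩
    rcases v with _ | ⟨i, v⟩
    · exact Or.inl rfl
    · obtain ⟨h1, h2⟩ := (isVertex_cons _ _ _).1 hv
      refine Or.inr (Set.mem_iUnion₂.2 ⟨i, h1, v, ⟨h2, by simpa using hl⟩, rfl⟩)

lemma infinite_iff (t : List ℕ → ℕ) (η : List ℕ → Bool) :
    (cluster t η).Infinite ↔ ∀ n, Reach n t η := by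
  constructor
  · intro h n
    by_contra hn
    apply h
    refine (finite_vertices n t).subset ?_
    intro v hv
    refine ⟨hv.1, ?_⟩
    by_contra hl
    exact hn (reach_anti (not_lt.1 hl) t η ((reach_iff _ t η).2 ⟨v, hv, rfl⟩))
  · intro h hf
    obtain ⟨N, hN⟩ := (hf.image List.length).bddAbove
    obtain ⟨v, hv, hl⟩ := (reach_iff _ t η).1 (h (N + 1))
    have := hN ⟨v, hv, rfl⟩
    omega

lemma measurable_reach (n : ℕ) : ∀ t : List ℕ → ℕ, MeasurableSet {η | Reach n t η} := by
  induction n with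
  | zero => intro t; simp [Reach]
  | succ n ih =>
    intro t
    have : {η | Reach (n + 1) t η} =
        ⋃ i, ⋃ (_ : i < t []), {η | η [i] = true} ∩ (sh i) ⁻¹' {ξ | Reach n (sh i t) ξ} := by
      ext η; simp [Reach, and_left_comm]
    rw [this]
    refine MeasurableSet.iUnion fun i => MeasurableSet.iUnion fun _ => ?_
    exact ((measurable_pi_apply [i]) (measurableSet_singleton true)).inter
      ((measurable_sh i) (ih _))

/-- The probability of an open path of length `n`. -/
noncomputable def G (n : ℕ) (t : List ℕ → ℕ) (p : ℝ) : ℝ := (perc p).real {η | Reach n t η}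

lemma ber_true {p : ℝ} (h0 : 0 ≤ p) (h1 : p ≤ 1) : (ber p).real {true} = p := by
  have : max 0 (min p 1) = p := by rw [min_eq_left h1, max_eq_right h0]
  simp only [ber, Measure.real, this]
  simp [h0]

lemma prob_root {p : ℝ} (h0 : 0 ≤ p) (h1 : p ≤ 1) (n : ℕ) (t : List ℕ → ℕ) :
    (perc p).real {η | η [] = true ∧ Reach n t η} = p * G n t p := by
  have : IsProbabilityMeasure (perc p) := by unfold perc; infer_instance
  have hroot : (perc p).real {η | η [] = true} = p := by
    have h := Measure.infinitePi_map_eval (fun _ : List ℕ => ber p) []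
    have h2 : (perc p).real {η | η [] = true} = ((perc p).map (fun η => η [])).real {true} := by
      rw [map_measureReal_apply (measurable_pi_apply _) (measurableSet_singleton _)]; rfl
    rw [h2]
    unfold perc
    rw [h, ber_true h0 h1]
  rcases n with _ | n
  · simp only [Reach, and_true, G]
    rw [hroot]; simp
  · have hi := indep_split (ber p) (t [])
    have hB : MeasurableSet {y : Fin (t []) → List ℕ → Bool |
        ∃ i : Fin (t []), (y i) [] = true ∧ Reach n (sh i t) (y i)} := by
      have : {y : Fin (t []) → List ℕ → Bool |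
          ∃ i : Fin (t []), (y i) [] = true ∧ Reach n (sh i t) (y i)} =
          ⋃ i : Fin (t []), (fun y => y i) ⁻¹' {ξ | ξ [] = true ∧ Reach n (sh i t) ξ} := by
        ext y; simp
      rw [this]
      refine MeasurableSet.iUnion fun i => (measurable_pi_apply i) ?_
      exact ((measurable_pi_apply []) (measurableSet_singleton true)).inter
        (measurable_reach n _)
    have h := hi.measure_inter_preimage_eq_mul {true} _ (measurableSet_singleton _) hB
    have e1 : (fun η : List ℕ → Bool => η []) ⁻¹' {true} = {η | η [] = true} := rfl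
    have e2 : (fun (η : List ℕ → Bool) (i : Fin (t [])) => sh (i : ℕ) η) ⁻¹'
        {y | ∃ i : Fin (t []), (y i) [] = true ∧ Reach n (sh i t) (y i)} =
        {η | Reach (n + 1) t η} := by
      ext η
      simp only [Set.mem_preimage, Set.mem_ofPred_eq, Reach]
      constructor
      · rintro ⟨i, h1, h2⟩; exact ⟨i, i.2, h1, h2⟩
      · rintro ⟨i, h1, h2, h3⟩; exact ⟨⟨i, h1⟩, h2, h3⟩
    rw [e1, e2] at h
    have h' := congrArg ENNReal.toReal h
    rw [ENNReal.toReal_mul] at h'
    have : (perc p).real {η | η [] = true ∧ Reach (n + 1) t η} =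
        (perc p).real {η | η [] = true} * G (n + 1) t p := h'
    rw [this, hroot]

lemma G_succ {p : ℝ} (h0 : 0 ≤ p) (h1 : p ≤ 1) (n : ℕ) (t : List ℕ → ℕ) :
    G (n + 1) t p = 1 - ∏ i ∈ Finset.range (t []), (1 - p * G n (sh i t) p) := by
  have : IsProbabilityMeasure (perc p) := by unfold perc; infer_instance
  have hc : {η | Reach (n + 1) t η}ᶜ =
      {η | ∀ i : Fin (t []), sh (i : ℕ) η ∈ {ξ | ξ [] = true ∧ Reach n (sh i t) ξ}ᶜ} := by
    ext η
    simp only [Set.mem_compl_iff, Set.mem_ofPred_eq, Reach]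
    constructor
    · intro h i hi; exact h ⟨i, i.2, hi.1, hi.2⟩
    · rintro h ⟨i, h1, h2, h3⟩; exact h ⟨i, h1⟩ ⟨h2, h3⟩
  have hE : Measurable (fun ξ : List ℕ → Bool => ξ []) := measurable_pi_apply []
  have hR : MeasurableSet {ξ : List ℕ → Bool | ξ [] = true} := hE (measurableSet_singleton true)
  have hA : ∀ i : ℕ, MeasurableSet {ξ : List ℕ → Bool | ξ [] = true ∧ Reach n (sh i t) ξ} :=
    fun i => hR.inter (measurable_reach n _)
  have hl := split_lintegral (ber p) (t []) (h := fun _ => 1) measurable_const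
    (F := fun i => ({ξ : List ℕ → Bool | ξ [] = true ∧ Reach n (sh i t) ξ}ᶜ).indicator 1)
    (fun i => measurable_one.indicator (hA i).compl)
  have h2 : ∀ η : List ℕ → Bool, (1 : ℝ≥0∞) * ∏ i : Fin (t []),
      ({ξ : List ℕ → Bool | ξ [] = true ∧ Reach n (sh i t) ξ}ᶜ).indicator 1 (sh (i : ℕ) η) =
      ({η | Reach (n + 1) t η}ᶜ).indicator 1 η := by
    intro η
    rw [hc, one_mul]
    by_cases h : ∀ i : Fin (t []), sh (i : ℕ) η ∈ {ξ | ξ [] = true ∧ Reach n (sh i t) ξ}ᶜ
    · rw [Set.indicator_of_mem (by exact h), Finset.prod_eq_one]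
      · rfl
      · intro i _
        rw [Set.indicator_of_mem (h i)]; rfl
    · rw [Set.indicator_of_notMem (by exact h)]
      push Not at h
      obtain ⟨i, hi⟩ := h
      exact Finset.prod_eq_zero (Finset.mem_univ i) (Set.indicator_of_notMem hi _)
  simp only [h2] at hl
  rw [lintegral_indicator_one (measurable_reach _ _).compl] at hl
  simp only [lintegral_indicator_one (hA _).compl, lintegral_const, measure_univ, mul_one,
    one_mul] at hl
  have hr := congrArg ENNReal.toReal hl
  rw [ENNReal.toReal_prod] at hr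
  have e1 : (perc p).real ({η | Reach (n + 1) t η}ᶜ) = 1 - G (n + 1) t p := by
    rw [probReal_compl_eq_one_sub (measurable_reach _ _)]; rfl
  have e2 : ∀ i : ℕ, (perc p).real ({ξ : List ℕ → Bool | ξ [] = true ∧ Reach n (sh i t) ξ}ᶜ) =
      1 - p * G n (sh i t) p := by
    intro i
    rw [probReal_compl_eq_one_sub (hA i), prob_root h0 h1]
  have hr' : (perc p).real ({η | Reach (n + 1) t η}ᶜ) = ∏ i : Fin (t []),
      (perc p).real ({ξ : List ℕ → Bool | ξ [] = true ∧ Reach n (sh i t) ξ}ᶜ) := hr
  simp only [e1, e2] at hr'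
  rw [Finset.prod_range (fun i => 1 - p * G n (sh i t) p)]
  linarith

lemma W_eq {p : ℝ} (h0 : 0 ≤ p) (h1 : p ≤ 1) (n : ℕ) : ∀ t : List ℕ → ℕ,
    W p (1 - p) n t = 1 - p * G n t p := by
  have : IsProbabilityMeasure (perc p) := by unfold perc; infer_instance
  induction n with
  | zero => intro t; simp [W, G, Reach]
  | succ n ih =>
    intro t
    rw [W, G_succ h0 h1]
    simp only [ih]
    ring

lemma tendsto_G (t : List ℕ → ℕ) (p : ℝ) :
    Tendsto (fun n => G n t p) atTop (𝓝 (quenched t p)) := by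
  have : IsProbabilityMeasure (perc p) := by unfold perc; infer_instance
  have e : {η | (cluster t η).Infinite} = ⋂ n, {η | Reach n t η} := by
    ext η; simp [infinite_iff]
  unfold quenched G
  rw [e]
  have h := tendsto_measure_iInter_atTop (μ := perc p) (s := fun n => {η | Reach n t η})
    (fun n => (measurable_reach n t).nullMeasurableSet)
    (fun m n hmn η hη => reach_anti hmn t η hη) ⟨0, measure_ne_top _ _⟩
  exact (ENNReal.tendsto_toReal (measure_ne_top _ _)).comp h

lemma G_mono (n : ℕ) : ∀ (t : List ℕ → ℕ) {p r : ℝ}, 0 ≤ p → p ≤ r → r ≤ 1 →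
    G n t p ≤ G n t r := by
  induction n with
  | zero =>
    intro t p r _ _ _
    have : IsProbabilityMeasure (perc p) := by unfold perc; infer_instance
    have : IsProbabilityMeasure (perc r) := by unfold perc; infer_instance
    simp [G, Reach]
  | succ n ih =>
    intro t p r h0 hpr h1
    rw [G_succ h0 (hpr.trans h1), G_succ (h0.trans hpr) h1]
    have hG : ∀ (s : List ℕ → ℕ) (x : ℝ), 0 ≤ G n s x ∧ G n s x ≤ 1 := fun s x => by
      have : IsProbabilityMeasure (perc x) := by unfold perc; infer_instance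
      exact ⟨measureReal_nonneg, measureReal_le_one⟩
    have : ∏ i ∈ Finset.range (t []), (1 - r * G n (sh i t) r) ≤
        ∏ i ∈ Finset.range (t []), (1 - p * G n (sh i t) p) := by
      refine Finset.prod_le_prod (fun i _ => ?_) (fun i _ => ?_)
      · have := hG (sh i t) r
        nlinarith
      · have h2 := ih (sh i t) h0 hpr h1
        have := hG (sh i t) r
        have := hG (sh i t) p
        nlinarith
    linarith

lemma quenched_mono (t : List ℕ → ℕ) {p r : ℝ} (h0 : 0 ≤ p) (hpr : p ≤ r) (h1 : r ≤ 1) :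
    quenched t p ≤ quenched t r :=
  le_of_tendsto_of_tendsto' (tendsto_G t p) (tendsto_G t r) fun n => G_mono n t h0 hpr h1

lemma quenched_nonneg (t : List ℕ → ℕ) (p : ℝ) : 0 ≤ quenched t p := measureReal_nonneg

end Pool.Agent.V11320.QS
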