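import Pool.Agent.V11320.QS.Conv

/-!
# Identification of the limit for real parameters
-/

open MeasureTheory ProbabilityTheory Filter Topology
open scoped ENNReal ComplexConjugate Real

namespace Pool.Agent.V11320.QS

variable {q : PMF ℕ} {R : ℝ}

lemma W_cast (p x : ℝ) (n : ℕ) : ∀ t : List ℕ → ℕ,
    ((W p x n t : ℝ) : ℂ) = W (p : ℂ) (x : ℂ) n t := by
  induction n with
  | zero => intro t; simp [W]
  | succ n ih => intro t; simp only [W]; push_cast; simp only [ih]

lemma W_bounds {p x : ℝ} (h0 : 0 ≤ p) (h1 : p ≤ 1) (x0 : 0 ≤ x) (x1 : x ≤ 1) (n : ℕ) :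
    ∀ t : List ℕ → ℕ, 0 ≤ W p x n t ∧ W p x n t ≤ 1 := by
  induction n with
  | zero => intro t; simp only [W]; exact ⟨x0, x1⟩
  | succ n ih =>
    intro t
    simp only [W]
    have a : 0 ≤ ∏ i ∈ Finset.range (t []), W p x n (sh i t) :=
      Finset.prod_nonneg fun i _ => (ih _).1
    have b : ∏ i ∈ Finset.range (t []), W p x n (sh i t) ≤ 1 :=
      Finset.prod_le_one (fun i _ => (ih _).1) fun i _ => (ih _).2
    constructor <;> nlinarith

lemma W_mono {p x y : ℝ} (h0 : 0 ≤ p) (h1 : p ≤ 1) (x0 : 0 ≤ x) (hxy : x ≤ y) (y1 : y ≤ 1)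
    (n : ℕ) : ∀ t : List ℕ → ℕ, W p x n t ≤ W p y n t := by
  induction n with
  | zero => intro t; simpa only [W] using hxy
  | succ n ih =>
    intro t
    simp only [W]
    have : ∏ i ∈ Finset.range (t []), W p x n (sh i t) ≤
        ∏ i ∈ Finset.range (t []), W p y n (sh i t) :=
      Finset.prod_le_prod (fun i _ => (W_bounds h0 h1 x0 (hxy.trans y1) n _).1) fun i _ => ih _
    nlinarith

lemma measurable_WR (p x : ℝ) (n : ℕ) : Measurable (fun t : List ℕ → ℕ => W p x n t) := by
  have h := Complex.measurable_re.comp (measurable_W1 (p : ℂ) (x : ℂ) n)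
  have e : (fun t : List ℕ → ℕ => W p x n t) = fun t => (W (p : ℂ) (x : ℂ) n t).re := by
    funext t; rw [← W_cast, Complex.ofReal_re]
  rw [e]; exact h

lemma integrable_WR {p x : ℝ} (h0 : 0 ≤ p) (h1 : p ≤ 1) (x0 : 0 ≤ x) (x1 : x ≤ 1) (n : ℕ) :
    Integrable (fun t : List ℕ → ℕ => W p x n t) (gw q) := by
  refine Integrable.of_bound (measurable_WR p x n).aestronglyMeasurable 1 (ae_of_all _ fun t => ?_)
  have := W_bounds h0 h1 x0 x1 n t
  rw [Real.norm_eq_abs, abs_of_nonneg this.1]; exact this.2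

lemma int_rec (h : EM q R) {p x : ℝ} (h0 : 0 ≤ p) (h1 : p ≤ 1) (x0 : 0 ≤ x) (x1 : x ≤ 1)
    (n : ℕ) : ∫ t, W p x (n + 1) t ∂gw q = 1 - p + p * phiR q (∫ t, W p x n t ∂gw q) := by
  have hi := integrable_WR (q := q) h0 h1 x0 x1 n
  have hb := branch q (zero_le_one.trans h.hR.le) (h.sum_pow (zero_le_one.trans h.hR.le) le_rfl)
    (F := fun t => ((W p x n t : ℝ) : ℂ)) (Complex.measurable_ofReal.comp (measurable_WR p x n))
    hi.ofReal (by
      calc ∫ t, ‖((W p x n t : ℝ) : ℂ)‖ ∂gw q ≤ ∫ _t : List ℕ → ℕ, (1 : ℝ) ∂gw q := by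
            refine integral_mono hi.ofReal.norm (integrable_const _) fun t => ?_
            have := W_bounds h0 h1 x0 x1 n t
            simp only [Complex.norm_real, Real.norm_eq_abs]
            rw [abs_of_nonneg this.1]; exact this.2
        _ = 1 := by simp
        _ ≤ R := h.hR.le)
  rw [integral_complex_ofReal, phi_ofReal] at hb
  have e : ∀ t, ((W p x (n + 1) t : ℝ) : ℂ) =
      1 - (p : ℂ) + p * ∏ i ∈ Finset.range (t []), ((W p x n (sh i t) : ℝ) : ℂ) := by
    intro t; simp only [W]; push_cast; rfl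
  have h2 : ((∫ t, W p x (n + 1) t ∂gw q : ℝ) : ℂ) =
      ((1 - p + p * phiR q (∫ t, W p x n t ∂gw q) : ℝ) : ℂ) := by
    rw [← integral_complex_ofReal]
    simp only [e]
    rw [int_aff hb.1, hb.2]
    push_cast; rfl
  exact_mod_cast h2

lemma fixed_pt (h : EM q R) {p x : ℝ} (h0 : 0 < p) (x0 : 0 < x) (x1 : x ≤ 1)
    (hx : chiR q x = p⁻¹) : x = 1 - p + p * phiR q x := by
  have := phiR_eq h x0.le (x1.trans h.hR.le)
  rw [hx] at this
  have h2 : p * (phiR q x - 1) = x - 1 := by rw [this]; field_simp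
  linarith

lemma phiR_nonneg {x : ℝ} (x0 : 0 ≤ x) : 0 ≤ phiR q x :=
  tsum_nonneg fun k => mul_nonneg (aw_nonneg q k) (pow_nonneg x0 k)

lemma tendsto_s (h : EM q R) (hm : 1 < mean q) {p x : ℝ} (h0 : 0 < p) (h1 : p < 1)
    (x0 : 0 < x) (x1 : x ≤ 1) (hx : chiR q x = p⁻¹) :
    Tendsto (fun n => ∫ t, W p (1 - p) n t ∂gw q) atTop (𝓝 x) ∧
      (∀ n, ∫ t, W p x n t ∂gw q = x) ∧ 1 - p ≤ x := by
  have hfix := fixed_pt h h0 x0 x1 hx
  have hpx : 1 - p ≤ x := by
    have := mul_nonneg h0.le (phiR_nonneg (q := q) x0.le)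
    linarith
  have hp0 : 0 ≤ 1 - p := by linarith
  have hp1 : 1 - p ≤ 1 := by linarith
  have hW : ∀ n, ∫ t, W p x n t ∂gw q = x := by
    intro n
    induction n with
    | zero => simp [W]
    | succ n ih => rw [int_rec h h0.le h1.le x0.le x1, ih]; exact hfix.symm
  refine ⟨?_, hW, hpx⟩
  set s : ℕ → ℝ := fun n => ∫ t, W p (1 - p) n t ∂gw q with hs
  have hmono : Monotone s := by
    refine monotone_nat_of_le_succ fun n => ?_
    refine integral_mono (integrable_WR h0.le h1.le hp0 hp1 n)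
      (integrable_WR h0.le h1.le hp0 hp1 (n + 1)) fun t => ?_
    simp only
    rw [W_eq h0.le h1.le, W_eq h0.le h1.le]
    have hG : G (n + 1) t p ≤ G n t p := by
      have : IsProbabilityMeasure (perc p) := by unfold perc; infer_instance
      exact measureReal_mono (fun η hη => reach_succ n t η hη)
    nlinarith
  have hle : ∀ n, s n ≤ x := by
    intro n
    rw [← hW n]
    exact integral_mono (integrable_WR h0.le h1.le hp0 hp1 n)
      (integrable_WR h0.le h1.le x0.le x1 n) fun t => W_mono h0.le h1.le hp0 hpx x1 n t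
  have hs0 : ∀ n, 0 ≤ s n := fun n => integral_nonneg fun t =>
    (W_bounds h0.le h1.le hp0 hp1 n t).1
  have hbdd : BddAbove (Set.range s) := ⟨x, by rintro _ ⟨n, rfl⟩; exact hle n⟩
  have ht := tendsto_atTop_ciSup hmono hbdd
  set l := ⨆ n, s n with hl
  have hlx : l ≤ x := ciSup_le hle
  have hl0 : 0 ≤ l := (hs0 0).trans (le_ciSup hbdd 0)
  have hR0 : 0 ≤ R := zero_le_one.trans h.hR.le
  have hlR : l ≤ R := (hlx.trans x1).trans h.hR.le
  have hfl : l = 1 - p + p * phiR q l := by
    have t1 : Tendsto (fun n => s (n + 1)) atTop (𝓝 l) := ht.comp (tendsto_add_atTop_nat 1)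
    have t2 : Tendsto (fun n => 1 - p + p * phiR q (s n)) atTop (𝓝 (1 - p + p * phiR q l)) := by
      refine (Tendsto.const_mul p ?_).const_add _
      have hc := phiR_cont h l ⟨hl0, hlR⟩
      refine hc.tendsto.comp (tendsto_nhdsWithin_iff.2 ⟨ht, Eventually.of_forall fun n => ?_⟩)
      exact ⟨hs0 n, ((hle n).trans x1).trans h.hR.le⟩
    have e : (fun n => s (n + 1)) = fun n => 1 - p + p * phiR q (s n) := by
      funext n; exact int_rec h h0.le h1.le hp0 hp1 n
    rw [e] at t1
    exact tendsto_nhds_unique t1 t2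
  have : l = x := by
    by_contra hne
    have hlt : l < x := lt_of_le_of_ne hlx hne
    have h2 := phiR_eq h hl0 hlR
    have h3 : (l - 1) * (p * chiR q l - 1) = 0 := by
      have : l - 1 = p * (phiR q l - 1) := by linarith
      rw [h2] at this
      linarith
    have h4 : l - 1 ≠ 0 := by
      have : l < 1 := hlt.trans_le x1
      intro hc; linarith
    have h5 : p * chiR q l = 1 := by
      rcases mul_eq_zero.1 h3 with h5 | h5
      · exact absurd h5 h4
      · linarith
    have h6 : chiR q l = p⁻¹ := by field_simp; linarith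
    obtain ⟨k, hk, hk0⟩ := exists_two hm
    have := chiR_gap h hk hl0 hlx (x1.trans h.hR.le)
    rw [hx, h6, sub_self] at this
    have h7 := mul_pos hk0 (sub_pos.2 hlt)
    linarith
  rw [← this]
  exact ht

/-- The almost sure limit for a real parameter. -/
lemma real_limit (h : EM q R) (hm : 1 < mean q) {p x : ℝ} (h0 : 0 < p) (h1 : p < 1)
    (x0 : 0 < x) (x1 : x ≤ 1) (hx : chiR q x = p⁻¹)
    (hc : ∀ᵐ t ∂gw q, ∃ l : ℂ, Tendsto (fun n => W (p : ℂ) (x : ℂ) n t) atTop (𝓝 l)) :
    ∀ᵐ t ∂gw q, Tendsto (fun n => W (p : ℂ) (x : ℂ) n t) atTop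
      (𝓝 (1 - p * quenched t p : ℝ)) := by
  obtain ⟨ts, hW, hpx⟩ := tendsto_s h hm h0 h1 x0 x1 hx
  have hp0 : 0 ≤ 1 - p := by linarith
  have hp1 : 1 - p ≤ 1 := by linarith
  have hc' : ∀ᵐ t ∂gw q, ∃ l : ℝ, Tendsto (fun n => W p x n t) atTop (𝓝 l) := by
    filter_upwards [hc] with t ht
    obtain ⟨l, hl⟩ := ht
    refine ⟨l.re, ?_⟩
    have := (Complex.continuous_re.tendsto l).comp hl
    refine this.congr fun n => ?_
    show (W (p : ℂ) (x : ℂ) n t).re = _
    rw [← W_cast, Complex.ofReal_re]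
  have hlim : ∀ᵐ t ∂gw q, Tendsto (fun n => W p x n t) atTop
      (𝓝 (limUnder atTop fun n => W p x n t)) := by
    filter_upwards [hc'] with t ht
    exact tendsto_nhds_limUnder ht
  set f : (List ℕ → ℕ) → ℝ := fun t => (limUnder atTop fun n => W p x n t) -
    (1 - p * quenched t p) with hf
  set F : ℕ → (List ℕ → ℕ) → ℝ := fun n t => W p x n t - W p (1 - p) n t with hF
  have hFt : ∀ᵐ t ∂gw q, Tendsto (fun n => F n t) atTop (𝓝 (f t)) := by
    filter_upwards [hlim] with t ht
    refine ht.sub ?_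
    have := ((tendsto_G t p).const_mul p).const_sub 1
    refine this.congr fun n => ?_
    rw [W_eq h0.le h1.le]
  have hFb : ∀ n t, 0 ≤ F n t ∧ F n t ≤ 1 := by
    intro n t
    have a := W_bounds h0.le h1.le x0.le x1 n t
    have b := W_bounds h0.le h1.le hp0 hp1 n t
    have c := W_mono h0.le h1.le hp0 hpx x1 n t
    constructor
    · exact sub_nonneg.2 c
    · simp only [hF]; linarith [a.2, b.1]
  have hFm : ∀ n, Measurable (F n) := fun n => (measurable_WR p x n).sub (measurable_WR p _ n)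
  have hFi : ∀ n, ∫ t, F n t ∂gw q = x - ∫ t, W p (1 - p) n t ∂gw q := by
    intro n
    rw [integral_sub (integrable_WR h0.le h1.le x0.le x1 n)
      (integrable_WR h0.le h1.le hp0 hp1 n), hW]
  have hconv := tendsto_integral_of_dominated_convergence (μ := gw q) (F := F) (f := f)
    (fun _ => (1 : ℝ)) (fun n => (hFm n).aestronglyMeasurable) (integrable_const _)
    (fun n => ae_of_all _ fun t => by
      rw [Real.norm_eq_abs, abs_of_nonneg (hFb n t).1]; exact (hFb n t).2) hFt
  have hzero : ∫ t, f t ∂gw q = 0 := by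
    refine tendsto_nhds_unique hconv ?_
    simp only [hFi]
    simpa using ts.const_sub x
  have hfm : AEStronglyMeasurable f (gw q) :=
    aestronglyMeasurable_of_tendsto_ae atTop (fun n => (hFm n).aestronglyMeasurable) hFt
  have hf0 : ∀ᵐ t ∂gw q, 0 ≤ f t ∧ f t ≤ 1 := by
    filter_upwards [hFt] with t ht
    exact ⟨ge_of_tendsto' ht fun n => (hFb n t).1, le_of_tendsto' ht fun n => (hFb n t).2⟩
  have hfi : Integrable f (gw q) := by
    refine Integrable.of_bound hfm 1 ?_
    filter_upwards [hf0] with t ht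
    rw [Real.norm_eq_abs, abs_of_nonneg ht.1]; exact ht.2
  have hae := (integral_eq_zero_iff_of_nonneg_ae (hf0.mono fun t ht => ht.1) hfi).1 hzero
  filter_upwards [hae, hlim] with t h2 h3
  have h4 : (limUnder atTop fun n => W p x n t) = 1 - p * quenched t p := by
    have : f t = 0 := h2
    simp only [hf] at this
    linarith
  rw [h4] at h3
  have h5 := (Complex.continuous_ofReal.tendsto _).comp h3
  refine h5.congr fun n => ?_
  show ((W p x n t : ℝ) : ℂ) = _
  rw [W_cast]

end Pool.Agent.V11320.QS
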