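import Pool.Agent.V11320.QS.Branch

/-!
# The generating function of the offspring distribution
-/

open MeasureTheory ProbabilityTheory Filter Topology
open scoped ENNReal

namespace Pool.Agent.V11320.QS

variable (q : PMF ℕ)

/-- Exponential moments, in the form used below. -/
structure EM (R : ℝ) : Prop where
  hR : 1 < R
  hs : Summable fun k : ℕ => aw q k * (((k : ℝ) + 1) ^ 2 * R ^ k)

/-- The difference quotient of the generating function at `1`. -/
noncomputable def chi (x : ℂ) : ℂ := ∑' k, (aw q k : ℂ) * ∑ j ∈ Finset.range k, x ^ j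

/-- The same on the real line. -/
noncomputable def chiR (x : ℝ) : ℝ := ∑' k, aw q k * ∑ j ∈ Finset.range k, x ^ j

/-- The derivative of the generating function. -/
noncomputable def DD (x : ℝ) : ℝ := ∑' k, aw q k * (k * x ^ (k - 1))

lemma chi_ofReal (x : ℝ) : chi q (x : ℂ) = (chiR q x : ℂ) := by
  unfold chi chiR; push_cast; rfl

lemma hasSum_aw : HasSum (aw q) 1 := by
  have h := ENNReal.hasSum_toReal (f := fun k => q k) (by rw [q.tsum_coe]; exact ENNReal.one_ne_top)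
  have h2 := ENNReal.tsum_toReal_eq (f := fun k => q k) q.apply_ne_top
  rw [q.tsum_coe] at h2
  rw [← h2] at h
  exact h

variable {q} {R : ℝ}

lemma EM.bound (h : EM q R) {a : ℕ → ℝ} (ha : ∀ k, |a k| ≤ ((k : ℝ) + 1) ^ 2 * R ^ k) :
    Summable fun k => aw q k * a k := by
  refine Summable.of_norm_bounded h.hs fun k => ?_
  rw [norm_mul, Real.norm_eq_abs, Real.norm_eq_abs, abs_of_nonneg (aw_nonneg q k)]
  exact mul_le_mul_of_nonneg_left (ha k) (aw_nonneg q k)

lemma geom_le {x R : ℝ} (h0 : 0 ≤ x) (hx : x ≤ R) (hR : 1 < R) (k : ℕ) :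
    ∑ j ∈ Finset.range k, x ^ j ≤ k * R ^ k := by
  calc ∑ j ∈ Finset.range k, x ^ j ≤ ∑ j ∈ Finset.range k, R ^ k := by
        refine Finset.sum_le_sum fun j hj => ?_
        exact (pow_le_pow_left₀ h0 hx j).trans
          (pow_le_pow_right₀ hR.le (Finset.mem_range.1 hj).le)
    _ = k * R ^ k := by simp

lemma k_le (k : ℕ) : (k : ℝ) ≤ ((k : ℝ) + 1) ^ 2 := by
  have : (0 : ℝ) ≤ k := k.cast_nonneg
  nlinarith

lemma one_le_k (k : ℕ) : (1 : ℝ) ≤ ((k : ℝ) + 1) ^ 2 := by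
  have : (0 : ℝ) ≤ k := k.cast_nonneg
  nlinarith

lemma EM.pos (h : EM q R) (k : ℕ) : 0 < R ^ k := pow_pos (zero_lt_one.trans h.hR) k

lemma EM.sum_pow (h : EM q R) {x : ℝ} (h0 : 0 ≤ x) (hx : x ≤ R) :
    Summable fun k => aw q k * x ^ k := by
  refine h.bound fun k => ?_
  rw [abs_of_nonneg (pow_nonneg h0 k)]
  exact (pow_le_pow_left₀ h0 hx k).trans (le_mul_of_one_le_left (h.pos k).le (one_le_k k))

lemma EM.sum_geom (h : EM q R) {x : ℝ} (h0 : 0 ≤ x) (hx : x ≤ R) :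
    Summable fun k => aw q k * ∑ j ∈ Finset.range k, x ^ j := by
  refine h.bound fun k => ?_
  rw [abs_of_nonneg (Finset.sum_nonneg fun j _ => pow_nonneg h0 j)]
  exact (geom_le h0 hx h.hR k).trans (mul_le_mul_of_nonneg_right (k_le k) (h.pos k).le)

lemma EM.sum_DD (h : EM q R) {x : ℝ} (h0 : 0 ≤ x) (hx : x ≤ R) :
    Summable fun k : ℕ => aw q k * (k * x ^ (k - 1)) := by
  refine h.bound fun k => ?_
  rw [abs_of_nonneg (by positivity)]
  have h1 : x ^ (k - 1) ≤ R ^ k := (pow_le_pow_left₀ h0 hx _).trans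
    (pow_le_pow_right₀ h.hR.le (Nat.sub_le k 1))
  have h2 : 0 ≤ x ^ (k - 1) := pow_nonneg h0 _
  calc (k : ℝ) * x ^ (k - 1) ≤ (k : ℝ) * R ^ k := by gcongr
    _ ≤ _ := mul_le_mul_of_nonneg_right (k_le k) (h.pos k).le

lemma phi_eq (h : EM q R) {x : ℂ} (hx : ‖x‖ ≤ R) : phi q x - 1 = (x - 1) * chi q x := by
  have s1 : Summable fun k => (aw q k : ℂ) * x ^ k := by
    refine Summable.of_norm ?_
    refine (h.sum_pow (norm_nonneg x) hx).congr fun k => ?_
    rw [norm_mul, norm_pow, Complex.norm_real, Real.norm_eq_abs, abs_of_nonneg (aw_nonneg q k)]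
  have s2 : Summable fun k => (aw q k : ℂ) := by
    exact_mod_cast (Complex.hasSum_ofReal.2 (hasSum_aw q)).summable
  have t2 : ∑' k, (aw q k : ℂ) = 1 := by
    have := (Complex.hasSum_ofReal.2 (hasSum_aw q)).tsum_eq
    simpa using this
  have e : phi q x - 1 = ∑' k, (aw q k : ℂ) * x ^ k - ∑' k, (aw q k : ℂ) := by rw [t2]; rfl
  rw [e]
  unfold chi
  rw [← s1.tsum_sub s2, ← tsum_mul_left]
  refine tsum_congr fun k => ?_
  have := mul_geom_sum x k
  rw [mul_left_comm, this]; ring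

lemma phiR_eq (h : EM q R) {x : ℝ} (h0 : 0 ≤ x) (hx : x ≤ R) :
    phiR q x - 1 = (x - 1) * chiR q x := by
  have := phi_eq h (x := (x : ℂ)) (by rwa [Complex.norm_real, Real.norm_eq_abs, abs_of_nonneg h0])
  rw [phi_ofReal, chi_ofReal] at this
  exact_mod_cast this

lemma chi_diff (h : EM q R) : DifferentiableOn ℂ (chi q) (Metric.ball 0 R) := by
  refine Complex.differentiableOn_tsum_of_summable_norm h.hs (fun k => ?_) Metric.isOpen_ball
    fun k w hw => ?_
  · exact (Differentiable.const_mul (by fun_prop) _).differentiableOn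
  · have hw' : ‖w‖ ≤ R := by simpa using (mem_ball_zero_iff.1 hw).le
    rw [norm_mul, Complex.norm_real, Real.norm_eq_abs, abs_of_nonneg (aw_nonneg q k)]
    refine mul_le_mul_of_nonneg_left ?_ (aw_nonneg q k)
    calc ‖∑ j ∈ Finset.range k, w ^ j‖ ≤ ∑ j ∈ Finset.range k, ‖w‖ ^ j :=
          norm_sum_le_of_le _ fun j _ => (norm_pow _ _).le
      _ ≤ _ := (geom_le (norm_nonneg w) hw' h.hR k).trans
          (mul_le_mul_of_nonneg_right (k_le k) (h.pos k).le)

/-- Some vertex has at least two children with positive probability. -/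
lemma exists_two (hm : 1 < mean q) : ∃ k, 2 ≤ k ∧ 0 < aw q k := by
  by_contra hc
  push Not at hc
  have h0 : ∀ k, 2 ≤ k → aw q k = 0 := fun k hk => le_antisymm (hc k hk) (aw_nonneg q k)
  have : mean q = aw q 1 := by
    unfold mean
    rw [tsum_eq_single 1]
    · simp [aw]
    · intro k hk
      rcases Nat.lt_or_ge k 2 with h2 | h2
      · have : k = 0 := by omega
        simp [this]
      · have := h0 k h2
        unfold aw at this
        rw [this, mul_zero]
  have h1 : aw q 1 ≤ 1 := by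
    have := (hasSum_aw q).summable.le_tsum 1 (fun k _ => aw_nonneg q k)
    rwa [(hasSum_aw q).tsum_eq] at this
  linarith

lemma chiR_gap (h : EM q R) {k : ℕ} (hk : 2 ≤ k) {x y : ℝ} (h0 : 0 ≤ x) (hxy : x ≤ y)
    (hy : y ≤ R) : aw q k * (y - x) ≤ chiR q y - chiR q x := by
  have s1 := h.sum_geom h0 (hxy.trans hy)
  have s2 := h.sum_geom (h0.trans hxy) hy
  unfold chiR
  rw [← s2.tsum_sub s1]
  have hnn : ∀ k, 0 ≤ aw q k * ∑ j ∈ Finset.range k, y ^ j -
      aw q k * ∑ j ∈ Finset.range k, x ^ j := fun k => by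
    rw [← mul_sub, ← Finset.sum_sub_distrib]
    exact mul_nonneg (aw_nonneg q k) (Finset.sum_nonneg fun j _ =>
      sub_nonneg.2 (pow_le_pow_left₀ h0 hxy j))
  refine le_trans ?_ ((s2.sub s1).le_tsum k fun k _ => hnn k)
  rw [← mul_sub, ← Finset.sum_sub_distrib]
  refine mul_le_mul_of_nonneg_left ?_ (aw_nonneg q k)
  have h1 : (1 : ℕ) ∈ Finset.range k := Finset.mem_range.2 (by omega)
  have := Finset.single_le_sum (f := fun j => y ^ j - x ^ j) (s := Finset.range k)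
    (fun j _ => sub_nonneg.2 (pow_le_pow_left₀ h0 hxy j)) h1
  simpa using this

lemma chiR_one : chiR q 1 = mean q := by
  unfold chiR mean
  refine tsum_congr fun k => ?_
  simp [aw]; ring

lemma chiR_zero_le : chiR q 0 ≤ 1 := by
  unfold chiR
  rw [← (hasSum_aw q).tsum_eq]
  have hle : ∀ k, aw q k * ∑ j ∈ Finset.range k, (0 : ℝ) ^ j ≤ aw q k := by
    intro k
    have : ∑ j ∈ Finset.range k, (0 : ℝ) ^ j ≤ 1 := by
      rcases k with _ | k
      · simp
      · rw [Finset.sum_range_succ']; simp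
    nlinarith [aw_nonneg q k]
  refine Summable.tsum_le_tsum hle ?_ (hasSum_aw q).summable
  exact Summable.of_nonneg_of_le (fun k => mul_nonneg (aw_nonneg q k)
    (Finset.sum_nonneg fun j _ => pow_nonneg le_rfl j)) hle (hasSum_aw q).summable

lemma pow_diff {x y s : ℝ} (h0 : 0 ≤ x) (hxy : x ≤ y) (hy : y ≤ s) (k : ℕ) :
    y ^ (k + 1) - x ^ (k + 1) ≤ (k + 1) * s ^ k * (y - x) := by
  induction k with
  | zero => simp
  | succ k ih =>
    have h1 : x ^ (k + 1) ≤ s ^ (k + 1) := pow_le_pow_left₀ h0 (hxy.trans hy) _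
    have h2 : 0 ≤ y ^ (k + 1) - x ^ (k + 1) := sub_nonneg.2 (pow_le_pow_left₀ h0 hxy _)
    have h3 : 0 ≤ s := (h0.trans hxy).trans hy
    calc y ^ (k + 1 + 1) - x ^ (k + 1 + 1)
        = y * (y ^ (k + 1) - x ^ (k + 1)) + (y - x) * x ^ (k + 1) := by ring
      _ ≤ s * ((k + 1) * s ^ k * (y - x)) + (y - x) * s ^ (k + 1) := by
          refine add_le_add (mul_le_mul hy ih h2 h3) ?_
          exact mul_le_mul_of_nonneg_left h1 (sub_nonneg.2 hxy)
      _ = _ := by push_cast; ring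

lemma phiR_lip (h : EM q R) {x y s : ℝ} (h0 : 0 ≤ x) (hxy : x ≤ y) (hy : y ≤ s) (hs : s ≤ R) :
    phiR q y - phiR q x ≤ DD q s * (y - x) := by
  have hs0 : 0 ≤ s := (h0.trans hxy).trans hy
  have s1 := h.sum_pow h0 ((hxy.trans hy).trans hs)
  have s2 := h.sum_pow (h0.trans hxy) (hy.trans hs)
  unfold phiR DD
  rw [← s2.tsum_sub s1, ← tsum_mul_right]
  refine Summable.tsum_le_tsum (fun k => ?_) (s2.sub s1) ((h.sum_DD hs0 hs).mul_right _)
  rw [← mul_sub, mul_assoc]
  refine mul_le_mul_of_nonneg_left ?_ (aw_nonneg q k)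
  rcases k with _ | k
  · simp
  · have := pow_diff h0 hxy hy k
    simpa using this

lemma DD_le_chiR (h : EM q R) {x : ℝ} (h0 : 0 ≤ x) (h1 : x ≤ 1) : DD q x ≤ chiR q x := by
  unfold DD chiR
  have hx : x ≤ R := h1.trans h.hR.le
  refine Summable.tsum_le_tsum (fun k => ?_) (h.sum_DD h0 hx) (h.sum_geom h0 hx)
  refine mul_le_mul_of_nonneg_left ?_ (aw_nonneg q k)
  calc (k : ℝ) * x ^ (k - 1) = ∑ j ∈ Finset.range k, x ^ (k - 1) := by simp
    _ ≤ ∑ j ∈ Finset.range k, x ^ j := Finset.sum_le_sum fun j hj =>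
        pow_le_pow_of_le_one h0 h1 (by have := Finset.mem_range.1 hj; omega)

lemma DD_cont (h : EM q R) : ContinuousOn (DD q) (Set.Icc 0 R) := by
  refine continuousOn_tsum (fun k => by fun_prop) h.hs fun k x hx => ?_
  rw [norm_mul, Real.norm_eq_abs, abs_of_nonneg (aw_nonneg q k), Real.norm_eq_abs,
    abs_of_nonneg (mul_nonneg k.cast_nonneg (pow_nonneg hx.1 _))]
  refine mul_le_mul_of_nonneg_left ?_ (aw_nonneg q k)
  have h1 : x ^ (k - 1) ≤ R ^ k := (pow_le_pow_left₀ hx.1 hx.2 _).trans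
    (pow_le_pow_right₀ h.hR.le (Nat.sub_le k 1))
  calc (k : ℝ) * x ^ (k - 1) ≤ (k : ℝ) * R ^ k := by gcongr
    _ ≤ _ := mul_le_mul_of_nonneg_right (k_le k) (h.pos k).le

lemma chiR_cont (h : EM q R) : ContinuousOn (chiR q) (Set.Icc 0 R) := by
  refine continuousOn_tsum (fun k => by fun_prop) h.hs fun k x hx => ?_
  rw [norm_mul, Real.norm_eq_abs, abs_of_nonneg (aw_nonneg q k), Real.norm_eq_abs,
    abs_of_nonneg (Finset.sum_nonneg fun j _ => pow_nonneg hx.1 j)]
  refine mul_le_mul_of_nonneg_left ?_ (aw_nonneg q k)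
  exact (geom_le hx.1 hx.2 h.hR k).trans (mul_le_mul_of_nonneg_right (k_le k) (h.pos k).le)

lemma phiR_cont (h : EM q R) : ContinuousOn (phiR q) (Set.Icc 0 R) := by
  refine continuousOn_tsum (fun k => by fun_prop) h.hs fun k x hx => ?_
  rw [norm_mul, Real.norm_eq_abs, abs_of_nonneg (aw_nonneg q k), Real.norm_eq_abs,
    abs_of_nonneg (pow_nonneg hx.1 k)]
  refine mul_le_mul_of_nonneg_left ?_ (aw_nonneg q k)
  exact (pow_le_pow_left₀ hx.1 hx.2 k).trans (le_mul_of_one_le_left (h.pos k).le (one_le_k k))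

/-- The fixed point for a real parameter. -/
lemma exists_wstar (h : EM q R) (hm : 1 < mean q) {p : ℝ} (hp : (mean q)⁻¹ ≤ p) (hp1 : p < 1) :
    ∃ x, 0 < x ∧ x ≤ 1 ∧ chiR q x = p⁻¹ := by
  have hm0 : 0 < mean q := zero_lt_one.trans hm
  have hp0 : 0 < p := (inv_pos.2 hm0).trans_le hp
  have h1 : p⁻¹ ≤ chiR q 1 := by
    rw [chiR_one]; exact inv_le_of_inv_le₀ hm0 hp
  have h2 : chiR q 0 < p⁻¹ := chiR_zero_le.trans_lt ((one_lt_inv₀ hp0).2 hp1)
  have hc : ContinuousOn (chiR q) (Set.Icc 0 1) := (chiR_cont h).mono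
    (Set.Icc_subset_Icc_right h.hR.le)
  obtain ⟨x, hx, hx2⟩ := intermediate_value_Icc (zero_le_one) hc ⟨h2.le, h1⟩
  refine ⟨x, lt_of_le_of_ne hx.1 ?_, hx.2, hx2⟩
  rintro rfl
  exact absurd hx2 h2.ne

end Pool.Agent.V11320.QS
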