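import Pool.Agent.V11320.QS.Defs

/-!
# The branching property of product measures on labellings of words
-/

open MeasureTheory ProbabilityTheory
open scoped ENNReal

namespace Pool.Agent.V11320.QS

variable {X : Type} [MeasurableSpace X] (μ : Measure X) [IsProbabilityMeasure μ]

/-- The product law on labellings. -/
noncomputable abbrev PP : Measure (List ℕ → X) := Measure.infinitePi fun _ => μ

/-- The subtree at the child `i`. -/
def sh (i : ℕ) (t : List ℕ → X) : List ℕ → X := fun v => t (i :: v)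

omit [IsProbabilityMeasure μ] in
lemma measurable_sh (i : ℕ) : Measurable (sh i : (List ℕ → X) → (List ℕ → X)) := by
  unfold sh; fun_prop

lemma law_sub (k : ℕ) :
    (PP μ).map (fun t (i : Fin k) => sh (i : ℕ) t) = Measure.pi fun _ : Fin k => PP μ := by
  have hinj : Function.Injective (fun p : Fin k × List ℕ => ((p.1 : ℕ) :: p.2)) := by
    rintro ⟨i, u⟩ ⟨j, v⟩ h
    simp only [List.cons.injEq] at h
    exact Prod.ext (Fin.ext h.1) h.2
  have h1 := MeasureTheory.Measure.map_infinitePi_infinitePi_of_inj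
    (P := fun _ : List ℕ => μ) hinj
  have h2 := Measure.infinitePi_map_curry (fun (_ : Fin k) (_ : List ℕ) => μ)
  rw [← h1, Measure.map_map (by fun_prop) (by fun_prop)] at h2
  rw [← Measure.infinitePi_eq_pi, ← h2]
  rfl

lemma indep_split (k : ℕ) :
    IndepFun (fun t : List ℕ → X => t []) (fun t (i : Fin k) => sh (i : ℕ) t) (PP μ) := by
  have hi : iIndepFun (fun (v : List ℕ) (t : List ℕ → X) => t v) (PP μ) :=
    iIndepFun_infinitePi (X := fun _ ω => ω) (by fun_prop)
  have hd : Disjoint ({[]} : Set (List ℕ)) {v | v ≠ []} := by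
    rw [Set.disjoint_left]; intro v hv hv'; exact hv' hv
  have hle : ∀ v : List ℕ, MeasurableSpace.comap (fun t : List ℕ → X => t v) inferInstance ≤
      (inferInstance : MeasurableSpace (List ℕ → X)) := fun v => (measurable_pi_apply v).comap_le
  have h := indep_iSup_of_disjoint hle hi hd
  rw [IndepFun_iff_Indep]
  refine indep_of_indep_of_le_left (indep_of_indep_of_le_right h ?_) ?_
  · refine Measurable.comap_le ?_
    refine @measurable_pi_lambda _ _ _ (_) _ _ fun i => ?_
    refine @measurable_pi_lambda _ _ _ (_) _ _ fun v => ?_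
    refine Measurable.mono (comap_measurable (fun t : List ℕ → X => t ((i : ℕ) :: v))) ?_ le_rfl
    exact le_iSup₂_of_le ((i : ℕ) :: v) (by simp) le_rfl
  · exact le_iSup₂_of_le [] rfl le_rfl

lemma law_split (k : ℕ) :
    (PP μ).map (fun t => (t [], fun (i : Fin k) => sh (i : ℕ) t)) =
      μ.prod (Measure.pi fun _ : Fin k => PP μ) := by
  have hm : Measurable (fun (t : List ℕ → X) (i : Fin k) => sh (i : ℕ) t) :=
    measurable_pi_iff.2 fun i => measurable_sh _
  rw [(indepFun_iff_map_prod_eq_prod_map_map (measurable_pi_apply _).aemeasurable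
    hm.aemeasurable).1 (indep_split μ k), law_sub, Measure.infinitePi_map_eval]

lemma lintegral_pi_prod {Y : Type} [MeasurableSpace Y] (ν : Measure Y) [IsProbabilityMeasure ν]
    (k : ℕ) {F : Fin k → Y → ℝ≥0∞} (hF : ∀ i, Measurable (F i)) :
    ∫⁻ x, ∏ i, F i (x i) ∂(Measure.pi fun _ : Fin k => ν) = ∏ i, ∫⁻ y, F i y ∂ν := by
  have h := lintegral_prod_eq_prod_lintegral_of_indepFun
    (μ := Measure.pi fun _ : Fin k => ν) Finset.univ (fun i (x : Fin k → Y) => F i (x i))
    (iIndepFun_pi (X := F) fun i => (hF i).aemeasurable)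
    (fun i => (hF i).comp (measurable_pi_apply i))
  rw [h]
  refine Finset.prod_congr rfl fun i _ => ?_
  exact (measurePreserving_eval (fun _ : Fin k => ν) i).lintegral_comp (hF i)

lemma split_lintegral (k : ℕ) {h : X → ℝ≥0∞} (hh : Measurable h)
    {F : Fin k → (List ℕ → X) → ℝ≥0∞} (hF : ∀ i, Measurable (F i)) :
    ∫⁻ t, h (t []) * ∏ i, F i (sh (i : ℕ) t) ∂PP μ = (∫⁻ x, h x ∂μ) * ∏ i, ∫⁻ t, F i t ∂PP μ := by
  have hm : Measurable (fun t : List ℕ → X => (t [], fun (i : Fin k) => sh (i : ℕ) t)) :=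
    (measurable_pi_apply _).prodMk (measurable_pi_iff.2 fun i => measurable_sh _)
  have hg : Measurable (fun x : X × (Fin k → List ℕ → X) => h x.1 * ∏ i, F i (x.2 i)) := by
    fun_prop
  calc _ = ∫⁻ x, h x.1 * ∏ i, F i (x.2 i)
        ∂((PP μ).map (fun t => (t [], fun (i : Fin k) => sh (i : ℕ) t))) := by
        rw [lintegral_map hg hm]
    _ = _ := by
        rw [law_split, lintegral_prod_mul (f := h) (g := fun y : Fin k → List ℕ → X =>
          ∏ i, F i (y i)) hh.aemeasurable
          (Measurable.aemeasurable (by fun_prop)), lintegral_pi_prod _ _ hF]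

lemma split_integral (k : ℕ) (h : X → ℂ) (hh : Measurable h)
    (F : (List ℕ → X) → ℂ) (hF : Measurable F) :
    ∫ t, h (t []) * ∏ i : Fin k, F (sh (i : ℕ) t) ∂PP μ = (∫ x, h x ∂μ) * (∫ t, F t ∂PP μ) ^ k := by
  have hm : Measurable (fun t : List ℕ → X => (t [], fun (i : Fin k) => sh (i : ℕ) t)) :=
    (measurable_pi_apply _).prodMk (measurable_pi_iff.2 fun i => measurable_sh _)
  have hg : Measurable (fun x : X × (Fin k → List ℕ → X) => h x.1 * ∏ i, F (x.2 i)) := by
    fun_prop
  calc _ = ∫ x, h x.1 * ∏ i, F (x.2 i)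
        ∂((PP μ).map (fun t => (t [], fun (i : Fin k) => sh (i : ℕ) t))) := by
        rw [integral_map hm.aemeasurable hg.aestronglyMeasurable]
    _ = _ := by
        rw [law_split, integral_prod_mul (f := h) (g := fun y : Fin k → List ℕ → X =>
          ∏ i, F (y i)), integral_fintype_prod_eq_pow]
        simp

end Pool.Agent.V11320.QS
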